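import Mathlib

/-!
# Mixed Tate variations of mixed Hodge structure with weights `0, -2, -4` on `ℂ ∖ {0, 1}`

All definitions used by the statement on the atypical locus.
-/

set_option autoImplicit false
open Complex Matrix

namespace Pool.Agent.LibMT49

/-- The dilogarithm `Li₂(z) = -∫₀¹ log(1 - t z) dt / t` (principal branch, with the principal
logarithm). -/
noncomputable def dilog (z : ℂ) : ℂ := -∫ t in (0:ℝ)..1, Complex.log (1 - t * z) / t

/-- A rational matrix as a complex matrix. -/
noncomputable def cast {m n : Type} (A : Matrix m n ℚ) : Matrix m n ℂ := A.map (algebraMap ℚ ℂ)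

/-- The data of a mixed Tate variation of mixed Hodge structure `V` on `ℂ ∖ {0, 1}` with
`Gr_0 = ℚ(0)^p`, `Gr_{-2} = ℚ(1)^q`, `Gr_{-4} = ℚ(2)^s`.
The extension of `Gr_0` by `Gr_{-2}` is given by the functions
`exp(Vc) z^V0 (1-z)^V1` (entry by entry), the extension of `Gr_{-2}` by `Gr_{-4}` by
`exp(Wc) z^W0 (1-z)^W1`, and `lam` is a constant of integration. The two conditions say that
the monodromy around `0` and around `1` is rational (the tame symbols at `0`, `1` vanish). -/
structure TateData (p q s : ℕ) where
  /-- exponents of `z` -/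
  V0 : Matrix (Fin q) (Fin p) ℚ
  /-- exponents of `1 - z` -/
  V1 : Matrix (Fin q) (Fin p) ℚ
  /-- logarithms of the constants -/
  Vc : Matrix (Fin q) (Fin p) ℂ
  /-- exponents of `z` -/
  W0 : Matrix (Fin s) (Fin q) ℚ
  /-- exponents of `1 - z` -/
  W1 : Matrix (Fin s) (Fin q) ℚ
  /-- logarithms of the constants -/
  Wc : Matrix (Fin s) (Fin q) ℂ
  /-- constant of integration -/
  lam : Matrix (Fin s) (Fin p) ℂ
  /-- the monodromy around `0` is rational -/
  mono0 : ∃ R : Matrix (Fin s) (Fin p) ℚ,
    cast W0 * Vc - Wc * cast V0 = (2 * Real.pi * I) • cast R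
  /-- the monodromy around `1` is rational -/
  mono1 : ∃ R : Matrix (Fin s) (Fin p) ℚ,
    cast W1 * Vc - Wc * cast V1 = (2 * Real.pi * I) • cast R

namespace TateData

variable {p q s : ℕ} (V : TateData p q s)

/-- `v(z) = Vc + V0 log z + V1 log(1-z)`. -/
noncomputable def v (z : ℂ) : Matrix (Fin q) (Fin p) ℂ :=
  V.Vc + Complex.log z • cast V.V0 + Complex.log (1 - z) • cast V.V1

/-- `w(z) = Wc + W0 log z + W1 log(1-z)`. -/
noncomputable def w (z : ℂ) : Matrix (Fin s) (Fin q) ℂ :=
  V.Wc + Complex.log z • cast V.W0 + Complex.log (1 - z) • cast V.W1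

/-- `l(z)`: the solution of `dl = dw · v` (Griffiths transversality) with constant of integration
`lam`. -/
noncomputable def l (z : ℂ) : Matrix (Fin s) (Fin p) ℂ :=
  V.lam + Complex.log z • (cast V.W0 * V.Vc) + Complex.log (1 - z) • (cast V.W1 * V.Vc)
    + (Complex.log z ^ 2 / 2) • cast (V.W0 * V.V0)
    + (Complex.log (1 - z) ^ 2 / 2) • cast (V.W1 * V.V1)
    + (Complex.log z * Complex.log (1 - z)) • cast (V.W1 * V.V0)
    + dilog z • cast (V.W1 * V.V0 - V.W0 * V.V1)

/-- The period matrix of `V` at `z`: its columns are a flat rational basis, written in the basis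
given by the Hodge-Tate splitting (the intersections of `F^{-k}` and `W_{-2k}`, `k = 0, 1, 2`). -/
noncomputable def periodMatrix (z : ℂ) :
    Matrix (Fin p ⊕ Fin q ⊕ Fin s) (Fin p ⊕ Fin q ⊕ Fin s) ℂ :=
  fromBlocks 1 0 (fromRows (V.v z) (V.l z))
    (fromBlocks ((2 * Real.pi * I) • 1) 0 ((2 * Real.pi * I) • V.w z) ((2 * Real.pi * I) ^ 2 • 1))

/-- The index `k` of the part of type `(-k,-k)`, as a complex number. -/
noncomputable def weightIndex (p q s : ℕ) : Fin p ⊕ Fin q ⊕ Fin s → ℂ :=
  Sum.elim (fun _ => 0) (Sum.elim (fun _ => 1) (fun _ => 2))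

/-- The derivative of the Hodge cocharacter, in the flat rational basis: the operator acting as
multiplication by `k` on the part of type `(-k,-k)`. -/
noncomputable def hodgeOperator (z : ℂ) :
    Matrix (Fin p ⊕ Fin q ⊕ Fin s) (Fin p ⊕ Fin q ⊕ Fin s) ℂ :=
  (V.periodMatrix z)⁻¹ * Matrix.diagonal (weightIndex p q s) * V.periodMatrix z

end TateData

/-- The smallest rational space of matrices that is closed under the commutator and whose
complexification contains `T`. -/
noncomputable def rationalHull {n : Type} [Fintype n] (T : Matrix n n ℂ) :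
    Submodule ℚ (Matrix n n ℚ) :=
  sInf {L | (∀ A ∈ L, ∀ B ∈ L, A * B - B * A ∈ L) ∧
    T ∈ Submodule.span ℂ ((fun M : Matrix n n ℚ => M.map (algebraMap ℚ ℂ)) '' (L : Set _))}

namespace TateData

variable {p q s : ℕ} (V : TateData p q s)

/-- The dimension of the Mumford-Tate group of the fibre at `z`, whose Lie algebra is the
rational hull of the derivative of the Hodge cocharacter. -/
noncomputable def mtDim (z : ℂ) : ℕ := Module.finrank ℚ (rationalHull (V.hodgeOperator z))

/-- The dimension of the generic Mumford-Tate group of the variation over `ℂ ∖ {0, 1}`. -/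
noncomputable def genericMtDim : ℕ := ⨆ z : {z : ℂ // z ≠ 0 ∧ z ≠ 1}, V.mtDim z

/-- The Hodge locus of the variation over `ℂ ∖ {0, 1}`: the points whose Mumford-Tate group is
smaller than the generic one. -/
def hodgeLocus : Set ℂ := {z | z ≠ 0 ∧ z ≠ 1 ∧ V.mtDim z < V.genericMtDim}

/-- The atypical locus. The Mumford-Tate domain at `z` is an orbit of the unipotent radical, so it
has dimension `mtDim z - 1`. A special point `z` is typical when the codimension of its domain in
the generic one is `1`, the codimension of the point in the image of the period map, and atypical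
otherwise. -/
def atypicalLocus : Set ℂ :=
  {z | z ∈ V.hodgeLocus ∧ (V.genericMtDim - 1) - (V.mtDim z - 1) ≠ 1}

/-- The coefficient of the dilogarithm in `V`, up to sign. -/
noncomputable def dilogCoeff : Matrix (Fin s) (Fin p) ℚ := V.W0 * V.V1 - V.W1 * V.V0

/-- A rational matrix `θ` (a rational linear functional on `s × p` matrices) annihilates the
constant symbol `Wc ∧ Vc`, a matrix with entries in the second exterior power of
`ℂ / 2πiℚ = ℂ^* ⊗ ℚ`: the exterior square is tested by pairs of rational linear functionals on `ℂ`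
which vanish at `2πi`. -/
def KillsSymbol (θ : Matrix (Fin p) (Fin s) ℚ) : Prop :=
  ∀ f g : ℂ →ₗ[ℚ] ℚ, f (2 * Real.pi * I) = 0 → g (2 * Real.pi * I) = 0 →
    (θ * (V.Wc.map f * V.Vc.map g - V.Wc.map g * V.Vc.map f)).trace = 0

/-- The dilogarithm occurs in `V` only twisted by nonzero constant symbols: every rational linear
functional which annihilates the constant symbol `Wc ∧ Vc` annihilates the coefficient matrix of
the dilogarithm. -/
def Twisted : Prop :=
  ∀ θ : Matrix (Fin p) (Fin s) ℚ, V.KillsSymbol θ → (θ * V.dilogCoeff).trace = 0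

end TateData

end Pool.Agent.LibMT49
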