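import Pool.Agent.LibMT49.Defs

set_option autoImplicit false
open Complex Matrix

namespace Pool.Agent.LibMT49

/-- Block lower triangular matrices `(0,0,0; x,a,0; t,y,2a)`. -/
def tri {p q s : ℕ} {K : Type} [CommRing K] (a : K) (x : Matrix (Fin q) (Fin p) K)
    (t : Matrix (Fin s) (Fin p) K) (y : Matrix (Fin s) (Fin q) K) :
    Matrix (Fin p ⊕ Fin q ⊕ Fin s) (Fin p ⊕ Fin q ⊕ Fin s) K :=
  fromBlocks 0 0 (fromRows x t) (fromBlocks (a • 1) 0 y ((2 * a) • 1))

variable {p q s : ℕ} {K : Type} [CommRing K]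

/-- The commutator of two such matrices. -/
theorem tri_comm (a b : K) (x x' : Matrix (Fin q) (Fin p) K) (t t' : Matrix (Fin s) (Fin p) K)
    (y y' : Matrix (Fin s) (Fin q) K) :
    tri a x t y * tri b x' t' y' - tri b x' t' y' * tri a x t y =
      tri 0 (a • x' - b • x) ((2 * a) • t' - (2 * b) • t + y * x' - y' * x) (a • y' - b • y) := by
  unfold tri
  rw [fromBlocks_multiply, fromBlocks_multiply, fromBlocks_multiply, fromBlocks_multiply,
    fromBlocks_mul_fromRows, fromBlocks_mul_fromRows]
  ext i j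
  rcases i with i | i | i <;> rcases j with j | j | j <;>
    simp only [Matrix.sub_apply, fromBlocks_apply₁₁, fromBlocks_apply₁₂, fromBlocks_apply₂₁,
      fromBlocks_apply₂₂, fromRows_apply_inl, fromRows_apply_inr, Matrix.add_apply, Matrix.mul_smul,
      Matrix.smul_mul, Matrix.mul_one, Matrix.one_mul, Matrix.zero_mul, Matrix.mul_zero,
      Matrix.smul_apply, smul_eq_mul, Matrix.zero_apply, Matrix.fromRows_mul, add_zero, zero_add,
      sub_zero, mul_zero, zero_mul, sub_self, zero_smul]
  all_goals try ring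

/-- Entrywise map. -/
theorem tri_map {K' : Type} [CommRing K'] (f : K →+* K') (a : K) (x : Matrix (Fin q) (Fin p) K)
    (t : Matrix (Fin s) (Fin p) K) (y : Matrix (Fin s) (Fin q) K) :
    (tri a x t y).map f = tri (f a) (x.map f) (t.map f) (y.map f) := by
  unfold tri
  rw [fromBlocks_map, fromBlocks_map, fromRows_map]
  congr 1
  · simp
  · simp
  · congr 1
    · ext i j; simp [Matrix.one_apply, apply_ite f, map_ofNat]
    · simp
    · ext i j; simp [Matrix.one_apply, apply_ite f, map_ofNat]

/-- `x(z) = v(z) / (2πi)`. -/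
noncomputable def TateData.x (V : TateData p q s) (z : ℂ) : Matrix (Fin q) (Fin p) ℂ :=
  (2 * Real.pi * I)⁻¹ • V.v z

/-- `y(z) = w(z) / (2πi)`. -/
noncomputable def TateData.y (V : TateData p q s) (z : ℂ) : Matrix (Fin s) (Fin q) ℂ :=
  (2 * Real.pi * I)⁻¹ • V.w z

/-- `t(z) = (2 l(z) - w(z) v(z)) / (2πi)²`. -/
noncomputable def TateData.t (V : TateData p q s) (z : ℂ) : Matrix (Fin s) (Fin p) ℂ :=
  ((2 * Real.pi * I) ^ 2)⁻¹ • ((2 : ℂ) • V.l z - V.w z * V.v z)

/-- The Hodge operator. (`P T = D P` and `P` is invertible.) -/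
theorem hodgeOperator_eq (V : TateData p q s) (z : ℂ) :
    V.hodgeOperator z = tri 1 (V.x z) (V.t z) (V.y z) := by
  have hc : (2 * Real.pi * I : ℂ) ≠ 0 := Complex.two_pi_I_ne_zero
  have hdet : IsUnit (V.periodMatrix z).det := by
    rw [TateData.periodMatrix, det_fromBlocks_zero₁₂, det_fromBlocks_zero₁₂, det_one, one_mul,
      det_smul, det_smul, det_one, det_one, isUnit_iff_ne_zero]
    simp [hc, Real.pi_ne_zero]
  have hD : Matrix.diagonal (TateData.weightIndex p q s) =
      fromBlocks 0 0 0 (fromBlocks 1 0 0 ((2 : ℂ) • 1)) := by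
    ext i j
    rcases i with i | i | i <;> rcases j with j | j | j <;>
      simp [TateData.weightIndex, Matrix.diagonal_apply, Matrix.one_apply]
  have hPT : V.periodMatrix z * tri 1 (V.x z) (V.t z) (V.y z) =
      Matrix.diagonal (TateData.weightIndex p q s) * V.periodMatrix z := by
    rw [hD, TateData.periodMatrix, tri, fromBlocks_multiply, fromBlocks_multiply,
      fromBlocks_multiply, fromBlocks_multiply, fromBlocks_mul_fromRows, fromBlocks_mul_fromRows]
    ext i j
    rcases i with i | i | i <;> rcases j with j | j | j <;>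
      simp only [fromBlocks_apply₁₁, fromBlocks_apply₁₂, fromBlocks_apply₂₁,
        fromBlocks_apply₂₂, fromRows_apply_inl, fromRows_apply_inr, Matrix.add_apply,
        Matrix.mul_smul, Matrix.smul_mul, Matrix.mul_one, Matrix.one_mul, Matrix.zero_mul,
        Matrix.mul_zero, Matrix.smul_apply, smul_eq_mul, Matrix.zero_apply, Matrix.sub_apply,
        add_zero, zero_add, mul_zero, zero_mul, zero_smul, TateData.x, TateData.y, TateData.t,
        one_smul, mul_one, one_mul, smul_zero]
    all_goals try field_simp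
    all_goals try ring
  rw [TateData.hodgeOperator, Matrix.mul_assoc, ← hPT, ← Matrix.mul_assoc,
    Matrix.nonsing_inv_mul _ hdet, Matrix.one_mul]

end Pool.Agent.LibMT49
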