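import Pool.Agent.LibMT49.H1

set_option autoImplicit false
open Complex Matrix

namespace Pool.Agent.LibMT49

variable {p q s : ℕ}

/-- The rational space spanned by `1` and the entries of `x` and `y`. -/
noncomputable def entrySpan (x : Matrix (Fin q) (Fin p) ℂ) (y : Matrix (Fin s) (Fin q) ℂ) :
    Submodule ℚ ℂ :=
  Submodule.span ℚ ({1} ∪ (Set.range fun ij : Fin q × Fin p => x ij.1 ij.2) ∪
    (Set.range fun ij : Fin s × Fin q => y ij.1 ij.2))

/-- The component of degree two of `T = tri 1 x t y` with respect to its rational part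
`f(T) = tri 1 f(x) f(t) f(y)`. -/
noncomputable def degTwo (f : ℂ →ₗ[ℚ] ℚ) (x : Matrix (Fin q) (Fin p) ℂ)
    (t : Matrix (Fin s) (Fin p) ℂ) (y : Matrix (Fin s) (Fin q) ℂ) : Matrix (Fin s) (Fin p) ℂ :=
  t - cast (t.map f) - y * cast (x.map f) + cast (y.map f) * x

theorem cast_add {m n : Type} (A B : Matrix m n ℚ) : cast (A + B) = cast A + cast B := by
  ext i j; simp [cast]

theorem cast_sub {m n : Type} (A B : Matrix m n ℚ) : cast (A - B) = cast A - cast B := by
  ext i j; simp [cast]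

theorem cast_zero {m n : Type} : cast (0 : Matrix m n ℚ) = 0 := by
  ext i j; simp [cast]

theorem cast_smul {m n : Type} (c : ℚ) (A : Matrix m n ℚ) :
    cast (c • A) = (c : ℂ) • cast A := by
  ext i j; simp [cast]

theorem cast_mul {m n k : Type} [Fintype n] (A : Matrix m n ℚ) (B : Matrix n k ℚ) :
    cast (A * B) = cast A * cast B := by
  ext i j; simp [cast, Matrix.mul_apply]

/-- The functionals which kill the part of degree two of the rational hull. -/
noncomputable def killer (f : ℂ →ₗ[ℚ] ℚ) (x : Matrix (Fin q) (Fin p) ℂ)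
    (t : Matrix (Fin s) (Fin p) ℂ) (y : Matrix (Fin s) (Fin q) ℂ) :
    Submodule ℚ (Matrix (Fin p) (Fin s) ℚ) where
  carrier := {θ | (∀ g h : ℂ →ₗ[ℚ] ℚ, g 1 = 0 → h 1 = 0 →
      (θ * (y.map g * x.map h - y.map h * x.map g)).trace = 0) ∧
      (cast θ * degTwo f x t y).trace = 0}
  add_mem' := by
    rintro a b ⟨ha, ha'⟩ ⟨hb, hb'⟩
    refine ⟨fun g h hg hh => ?_, ?_⟩
    · rw [Matrix.add_mul, Matrix.trace_add, ha g h hg hh, hb g h hg hh, add_zero]
    · rw [cast_add, Matrix.add_mul, Matrix.trace_add, ha', hb', add_zero]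
  zero_mem' := by
    refine ⟨fun g h _ _ => by simp, by simp [cast_zero]⟩
  smul_mem' := by
    rintro c a ⟨ha, ha'⟩
    refine ⟨fun g h hg hh => ?_, ?_⟩
    · rw [Matrix.smul_mul, Matrix.trace_smul, ha g h hg hh, smul_zero]
    · rw [cast_smul, Matrix.smul_mul, Matrix.trace_smul, ha', smul_zero]

theorem mem_killer {f : ℂ →ₗ[ℚ] ℚ} {x : Matrix (Fin q) (Fin p) ℂ}
    {t : Matrix (Fin s) (Fin p) ℂ} {y : Matrix (Fin s) (Fin q) ℂ}
    {θ : Matrix (Fin p) (Fin s) ℚ} :
    θ ∈ killer f x t y ↔ (∀ g h : ℂ →ₗ[ℚ] ℚ, g 1 = 0 → h 1 = 0 →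
      (θ * (y.map g * x.map h - y.map h * x.map g)).trace = 0) ∧
      (cast θ * degTwo f x t y).trace = 0 := Iff.rfl

end Pool.Agent.LibMT49
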