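import Pool.Agent.LibMT49.H2

set_option autoImplicit false
open Complex Matrix

namespace Pool.Agent.LibMT49

variable {p q s : ℕ}

/-! Helper lemmas -/

private theorem h3_tri_add {K : Type} [CommRing K] (a a' : K) (x x' : Matrix (Fin q) (Fin p) K)
    (t t' : Matrix (Fin s) (Fin p) K) (y y' : Matrix (Fin s) (Fin q) K) :
    tri (a + a') (x + x') (t + t') (y + y') = tri a x t y + tri a' x' t' y' := by
  ext i j
  rcases i with i | i | i <;> rcases j with j | j | j <;>
    simp [tri, Matrix.add_apply, add_mul, mul_add, Matrix.smul_apply]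

private theorem h3_tri_smul {K : Type} [CommRing K] (c a : K) (x : Matrix (Fin q) (Fin p) K)
    (t : Matrix (Fin s) (Fin p) K) (y : Matrix (Fin s) (Fin q) K) :
    tri (c * a) (c • x) (c • t) (c • y) = c • tri a x t y := by
  ext i j
  rcases i with i | i | i <;> rcases j with j | j | j <;>
    simp [tri, Matrix.smul_apply, mul_assoc, mul_left_comm]

/-- A complex matrix all of whose rational images lie in `L` lies in the complexification
of `L`. -/
private theorem h3_mem_span {n : Type} [Fintype n] (T : Matrix n n ℂ)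
    (L : Submodule ℚ (Matrix n n ℚ)) (h : ∀ g : ℂ →ₗ[ℚ] ℚ, T.map g ∈ L) :
    T ∈ Submodule.span ℂ ((fun M : Matrix n n ℚ => M.map (algebraMap ℚ ℂ)) '' (L : Set _)) := by
  classical
  set F : Submodule ℚ ℂ := Submodule.span ℚ (Set.range fun ij : n × n => T ij.1 ij.2) with hF
  have : FiniteDimensional ℚ F := FiniteDimensional.span_of_finite ℚ (Set.finite_range _)
  set b := Module.finBasis ℚ F with hb
  choose g hg using fun i => LinearMap.exists_extend (b.coord i)
  have hmem : ∀ j k, T j k ∈ F := fun j k => Submodule.subset_span ⟨(j, k), rfl⟩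
  have key : T = ∑ i, ((b i : F) : ℂ) • (T.map (g i)).map (algebraMap ℚ ℂ) := by
    ext j k
    have h1 := b.sum_repr ⟨T j k, hmem j k⟩
    have h2 := congrArg (fun w : F => (w : ℂ)) h1
    simp only [Submodule.coe_sum, Submodule.coe_smul] at h2
    rw [Matrix.sum_apply, ← h2]
    refine Finset.sum_congr rfl fun i _ => ?_
    simp only [Matrix.smul_apply, Matrix.map_apply]
    have h3 : g i (T j k) = b.repr ⟨T j k, hmem j k⟩ i := by
      have := congrArg (fun w => w ⟨T j k, hmem j k⟩) (hg i)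
      simpa using this
    have h4 : (algebraMap ℚ ℂ) (g i (T j k)) = ((b.repr ⟨T j k, hmem j k⟩ i : ℚ) : ℂ) := by
      rw [h3]; rfl
    rw [h4, smul_eq_mul, mul_comm, Rat.smul_def]
  rw [key]
  refine Submodule.sum_mem _ fun i _ => Submodule.smul_mem _ _ (Submodule.subset_span ?_)
  exact ⟨T.map (g i), h (g i), rfl⟩

/-- trace pairing -/
private noncomputable def h3_tau (p s : ℕ) :
    Matrix (Fin p) (Fin s) ℚ →ₗ[ℚ] Module.Dual ℚ (Matrix (Fin s) (Fin p) ℚ) :=
  LinearMap.mk₂ ℚ (fun θ M => (θ * M).trace)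
    (fun a b c => by rw [Matrix.add_mul, Matrix.trace_add])
    (fun c a b => by rw [Matrix.smul_mul, Matrix.trace_smul])
    (fun a b c => by rw [Matrix.mul_add, Matrix.trace_add])
    (fun c a b => by rw [Matrix.mul_smul, Matrix.trace_smul])

private theorem h3_tau_apply (θ : Matrix (Fin p) (Fin s) ℚ) (M : Matrix (Fin s) (Fin p) ℚ) :
    h3_tau p s θ M = (θ * M).trace := rfl

private theorem h3_tau_inj : Function.Injective (h3_tau p s) := by
  intro a b hab
  rw [Matrix.ext_iff_trace_mul_right]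
  intro x
  rw [← h3_tau_apply, ← h3_tau_apply, hab]

/-- The matrices killed by `N`. -/
private noncomputable def h3_W (N : Submodule ℚ (Matrix (Fin p) (Fin s) ℚ)) :
    Submodule ℚ (Matrix (Fin s) (Fin p) ℚ) :=
  (N.map (h3_tau p s)).dualCoannihilator

private theorem h3_mem_W {N : Submodule ℚ (Matrix (Fin p) (Fin s) ℚ)}
    {M : Matrix (Fin s) (Fin p) ℚ} : M ∈ h3_W N ↔ ∀ θ ∈ N, (θ * M).trace = 0 := by
  unfold h3_W
  rw [Submodule.mem_dualCoannihilator]
  constructor
  · intro h θ hθ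
    exact h _ (Submodule.mem_map_of_mem hθ)
  · rintro h φ ⟨θ, hθ, rfl⟩
    exact h θ hθ

private theorem h3_finrank_W (N : Submodule ℚ (Matrix (Fin p) (Fin s) ℚ)) :
    Module.finrank ℚ (h3_W N) + Module.finrank ℚ N = s * p := by
  have h1 := Subspace.finrank_add_finrank_dualCoannihilator_eq (N.map (h3_tau p s))
  have h2 : Module.finrank ℚ (N.map (h3_tau p s)) = Module.finrank ℚ N :=
    (LinearEquiv.finrank_eq (Submodule.equivMapOfInjective _ h3_tau_inj N)).symm
  have h3 : Module.finrank ℚ (Matrix (Fin s) (Fin p) ℚ) = s * p := by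
    simp [Module.finrank_matrix]
  rw [h2, h3] at h1
  unfold h3_W
  omega

/-- the linear map `g ↦ tri (g 1) (g x) (...) (g y)` -/
private noncomputable def h3_A (f : ℂ →ₗ[ℚ] ℚ) (x : Matrix (Fin q) (Fin p) ℂ)
    (t : Matrix (Fin s) (Fin p) ℂ) (y : Matrix (Fin s) (Fin q) ℂ) :
    (ℂ →ₗ[ℚ] ℚ) →ₗ[ℚ] Matrix (Fin p ⊕ Fin q ⊕ Fin s) (Fin p ⊕ Fin q ⊕ Fin s) ℚ where
  toFun g := tri (g 1) (x.map g) (g 1 • t.map f + y.map g * x.map f - y.map f * x.map g)
    (y.map g)
  map_add' g h := by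
    rw [← h3_tri_add]
    have hx : x.map (g + h) = x.map g + x.map h := by ext i j; simp
    have hy : y.map (g + h) = y.map g + y.map h := by ext i j; simp
    simp only [hx, hy, LinearMap.add_apply, add_smul, Matrix.add_mul, Matrix.mul_add]
    congr 1
    abel
  map_smul' c g := by
    have hx : x.map (c • g) = c • x.map g := by ext i j; simp
    have hy : y.map (c • g) = c • y.map g := by ext i j; simp
    simp only [RingHom.id_apply]
    rw [← h3_tri_smul]
    simp only [hx, hy, LinearMap.smul_apply, smul_eq_mul, mul_smul, Matrix.smul_mul,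
      Matrix.mul_smul, smul_add, smul_sub]

private theorem h3_A_apply (f : ℂ →ₗ[ℚ] ℚ) (x : Matrix (Fin q) (Fin p) ℂ)
    (t : Matrix (Fin s) (Fin p) ℂ) (y : Matrix (Fin s) (Fin q) ℂ) (g : ℂ →ₗ[ℚ] ℚ) :
    h3_A f x t y g = tri (g 1) (x.map g)
      (g 1 • t.map f + y.map g * x.map f - y.map f * x.map g) (y.map g) := rfl

/-- the linear map `M ↦ tri 0 0 M 0` -/
private noncomputable def h3_B (p q s : ℕ) : Matrix (Fin s) (Fin p) ℚ →ₗ[ℚ]
    Matrix (Fin p ⊕ Fin q ⊕ Fin s) (Fin p ⊕ Fin q ⊕ Fin s) ℚ where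
  toFun M := tri 0 0 M 0
  map_add' M N := by
    rw [← h3_tri_add]; simp
  map_smul' c M := by
    simp only [RingHom.id_apply]
    rw [← h3_tri_smul]; simp

private theorem h3_B_apply (M : Matrix (Fin s) (Fin p) ℚ) :
    h3_B p q s M = tri 0 0 M 0 := rfl

/-- the space `S` -/
private noncomputable def h3_S (f : ℂ →ₗ[ℚ] ℚ) (x : Matrix (Fin q) (Fin p) ℂ)
    (t : Matrix (Fin s) (Fin p) ℂ) (y : Matrix (Fin s) (Fin q) ℂ) :
    Submodule ℚ (Matrix (Fin p ⊕ Fin q ⊕ Fin s) (Fin p ⊕ Fin q ⊕ Fin s) ℚ) :=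
  LinearMap.range (h3_A f x t y) ⊔ (h3_W (killer f x t y)).map (h3_B p q s)

private theorem h3_mem_S {f : ℂ →ₗ[ℚ] ℚ} {x : Matrix (Fin q) (Fin p) ℂ}
    {t : Matrix (Fin s) (Fin p) ℂ} {y : Matrix (Fin s) (Fin q) ℂ}
    {A : Matrix (Fin p ⊕ Fin q ⊕ Fin s) (Fin p ⊕ Fin q ⊕ Fin s) ℚ} :
    A ∈ h3_S f x t y ↔ ∃ g : ℂ →ₗ[ℚ] ℚ, ∃ M : Matrix (Fin s) (Fin p) ℚ,
      (∀ θ ∈ killer f x t y, (θ * M).trace = 0) ∧
      A = tri (g 1) (x.map g)
        (g 1 • t.map f + y.map g * x.map f - y.map f * x.map g + M) (y.map g) := by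
  unfold h3_S
  rw [Submodule.mem_sup]
  constructor
  · rintro ⟨_, ⟨g, rfl⟩, _, ⟨M, hM, rfl⟩, rfl⟩
    refine ⟨g, M, h3_mem_W.1 hM, ?_⟩
    rw [h3_A_apply, h3_B_apply, ← h3_tri_add]
    simp
  · rintro ⟨g, M, hM, rfl⟩
    refine ⟨_, ⟨g, rfl⟩, _, ⟨M, h3_mem_W.2 hM, rfl⟩, ?_⟩
    rw [h3_A_apply, h3_B_apply, ← h3_tri_add]
    simp

private theorem h3_finrank_A (f : ℂ →ₗ[ℚ] ℚ) (x : Matrix (Fin q) (Fin p) ℂ)
    (t : Matrix (Fin s) (Fin p) ℂ) (y : Matrix (Fin s) (Fin q) ℂ) :
    Module.finrank ℚ (LinearMap.range (h3_A f x t y)) ≤ Module.finrank ℚ (entrySpan x y) := by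
  classical
  set E := entrySpan x y with hE
  have : FiniteDimensional ℚ E := by
    rw [hE]; unfold entrySpan
    exact FiniteDimensional.span_of_finite ℚ
      (((Set.finite_singleton _).union (Set.finite_range _)).union (Set.finite_range _))
  -- restriction to `E`
  set R : (ℂ →ₗ[ℚ] ℚ) →ₗ[ℚ] Module.Dual ℚ E := Module.Dual.transpose E.subtype with hR
  have hker : LinearMap.ker R ≤ LinearMap.ker (h3_A f x t y) := by
    intro g hg
    rw [LinearMap.mem_ker] at hg ⊢
    have hg' : ∀ e ∈ E, g e = 0 := by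
      intro e he
      have := congrArg (fun φ : Module.Dual ℚ E => φ ⟨e, he⟩) hg
      simpa [hR, Module.Dual.transpose_apply] using this
    have h1 : g 1 = 0 := hg' 1 (Submodule.subset_span (Or.inl (Or.inl rfl)))
    have hx : x.map g = 0 := by
      ext i j
      exact hg' _ (Submodule.subset_span (Or.inl (Or.inr ⟨(i, j), rfl⟩)))
    have hy : y.map g = 0 := by
      ext i j
      exact hg' _ (Submodule.subset_span (Or.inr ⟨(i, j), rfl⟩))
    rw [h3_A_apply, h1, hx, hy]
    have := h3_tri_smul (p := p) (q := q) (s := s) (0 : ℚ) 0 0 0 0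
    simpa using this
  have hRsurj : Function.Surjective R := by
    intro φ
    obtain ⟨g, hg⟩ := LinearMap.exists_extend φ
    exact ⟨g, hg⟩
  -- factor through `R`
  obtain ⟨Rinv, hRinv⟩ := LinearMap.exists_rightInverse_of_surjective R
    (LinearMap.range_eq_top.2 hRsurj)
  have hfac : h3_A f x t y = ((h3_A f x t y).comp Rinv).comp R := by
    ext1 g
    have h1 : g - Rinv (R g) ∈ LinearMap.ker R := by
      rw [LinearMap.mem_ker, map_sub]
      have := congrArg (fun w => w (R g)) hRinv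
      simp only [LinearMap.comp_apply, LinearMap.id_apply] at this
      rw [this, sub_self]
    have h2 := hker h1
    rw [LinearMap.mem_ker, map_sub, sub_eq_zero] at h2
    exact h2
  have hle : LinearMap.range (h3_A f x t y) ≤ LinearMap.range ((h3_A f x t y).comp Rinv) := by
    conv_lhs => rw [hfac]
    exact LinearMap.range_comp_le_range _ _
  calc Module.finrank ℚ (LinearMap.range (h3_A f x t y))
      ≤ Module.finrank ℚ (LinearMap.range ((h3_A f x t y).comp Rinv)) :=
        Submodule.finrank_mono hle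
    _ ≤ Module.finrank ℚ (Module.Dual ℚ E) := LinearMap.finrank_range_le _
    _ = Module.finrank ℚ E := Subspace.dual_finrank_eq

private theorem h3_finrank_S (f : ℂ →ₗ[ℚ] ℚ) (x : Matrix (Fin q) (Fin p) ℂ)
    (t : Matrix (Fin s) (Fin p) ℂ) (y : Matrix (Fin s) (Fin q) ℂ) :
    Module.finrank ℚ (h3_S f x t y) + Module.finrank ℚ (killer f x t y) ≤
      Module.finrank ℚ (entrySpan x y) + s * p := by
  have h1 := h3_finrank_A f x t y
  have h2 := h3_finrank_W (killer f x t y)
  have h3 : Module.finrank ℚ ((h3_W (killer f x t y)).map (h3_B p q s)) ≤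
      Module.finrank ℚ (h3_W (killer f x t y)) := Submodule.finrank_map_le _ _
  have h4 : Module.finrank ℚ (h3_S f x t y) ≤ Module.finrank ℚ (LinearMap.range (h3_A f x t y)) +
      Module.finrank ℚ ((h3_W (killer f x t y)).map (h3_B p q s)) :=
    Submodule.finrank_add_le_finrank_add_finrank _ _
  omega

private theorem h3_comm (f : ℂ →ₗ[ℚ] ℚ) (hf : f 1 = 1) (x : Matrix (Fin q) (Fin p) ℂ)
    (t : Matrix (Fin s) (Fin p) ℂ) (y : Matrix (Fin s) (Fin q) ℂ) :
    ∀ A ∈ h3_S f x t y, ∀ B ∈ h3_S f x t y, A * B - B * A ∈ h3_S f x t y := by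
  intro A hA B hB
  obtain ⟨g, M, hM, rfl⟩ := h3_mem_S.1 hA
  obtain ⟨h, N, hN, rfl⟩ := h3_mem_S.1 hB
  rw [tri_comm, h3_mem_S]
  set g' : ℂ →ₗ[ℚ] ℚ := g - g 1 • f with hg'
  set h' : ℂ →ₗ[ℚ] ℚ := h - h 1 • f with hh'
  have hg1 : g' 1 = 0 := by simp [hg', hf]
  have hh1 : h' 1 = 0 := by simp [hh', hf]
  refine ⟨g 1 • h - h 1 • g, (2 * g 1) • N - (2 * h 1) • M
    + (y.map g' * x.map h' - y.map h' * x.map g'), ?_, ?_⟩
  · intro θ hθ
    have h1 := (mem_killer.1 hθ).1 g' h' hg1 hh1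
    rw [Matrix.mul_add, Matrix.mul_sub, Matrix.mul_smul, Matrix.mul_smul, Matrix.trace_add,
      Matrix.trace_sub, Matrix.trace_smul, Matrix.trace_smul, hM θ hθ, hN θ hθ, h1]
    simp
  · have ex : x.map (g 1 • h - h 1 • g) = g 1 • x.map h - h 1 • x.map g := by
      ext i j; simp
    have ey : y.map (g 1 • h - h 1 • g) = g 1 • y.map h - h 1 • y.map g := by
      ext i j; simp
    have e1 : (g 1 • h - h 1 • g : ℂ →ₗ[ℚ] ℚ) 1 = 0 := by
      simp [mul_comm]
    have exg : x.map g' = x.map g - g 1 • x.map f := by ext i j; simp [hg']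
    have exh : x.map h' = x.map h - h 1 • x.map f := by ext i j; simp [hh']
    have eyg : y.map g' = y.map g - g 1 • y.map f := by ext i j; simp [hg']
    have eyh : y.map h' = y.map h - h 1 • y.map f := by ext i j; simp [hh']
    rw [ex, ey, e1, exg, exh, eyg, eyh]
    congr 1
    simp only [Matrix.sub_mul, Matrix.mul_sub, Matrix.smul_mul, Matrix.mul_smul, smul_sub,
      smul_add, zero_smul, smul_smul]
    ext i j
    simp only [Matrix.add_apply, Matrix.sub_apply, Matrix.smul_apply, Matrix.zero_apply,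
      smul_eq_mul]
    ring

private theorem h3_map_degTwo (f g : ℂ →ₗ[ℚ] ℚ) (x : Matrix (Fin q) (Fin p) ℂ)
    (t : Matrix (Fin s) (Fin p) ℂ) (y : Matrix (Fin s) (Fin q) ℂ) :
    (degTwo f x t y).map g = t.map g - g 1 • t.map f - y.map g * x.map f + y.map f * x.map g := by
  have hq : ∀ (r : ℚ) (z : ℂ), g ((r : ℂ) * z) = r * g z := by
    intro r z
    have : ((r : ℂ) * z) = r • z := by rw [Rat.smul_def]
    rw [this, map_smul, smul_eq_mul]
  have hq1 : ∀ (r : ℚ), g (r : ℂ) = r * g 1 := by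
    intro r
    have := hq r 1
    rwa [mul_one] at this
  have hc : ∀ (r : ℚ), algebraMap ℚ ℂ r = (r : ℂ) := fun r => rfl
  ext i j
  simp only [degTwo, Matrix.map_apply, Matrix.add_apply, Matrix.sub_apply, Matrix.mul_apply,
    cast, map_add, map_sub, map_sum, Matrix.smul_apply, smul_eq_mul, hc]
  have e1 : ∀ k, g (y i k * ((f (x k j) : ℚ) : ℂ)) = g (y i k) * f (x k j) := by
    intro k; rw [mul_comm, hq, mul_comm]
  have e2 : ∀ k, g (((f (y i k) : ℚ) : ℂ) * x k j) = f (y i k) * g (x k j) := by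
    intro k; rw [hq]
  simp only [e1, e2, hq1]
  ring

private theorem h3_tri_map (g : ℂ →ₗ[ℚ] ℚ) (x : Matrix (Fin q) (Fin p) ℂ)
    (t : Matrix (Fin s) (Fin p) ℂ) (y : Matrix (Fin s) (Fin q) ℂ) :
    (tri 1 x t y).map g = tri (g 1) (x.map g) (t.map g) (y.map g) := by
  have h2 : g 2 = 2 * g 1 := by
    have : (2 : ℂ) = 1 + 1 := by norm_num
    rw [this, map_add]; ring
  ext i j
  rcases i with i | i | i <;> rcases j with j | j | j <;>
    simp [tri, Matrix.smul_apply, Matrix.one_apply, apply_ite g, h2]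

private theorem h3_T_mem (f : ℂ →ₗ[ℚ] ℚ) (x : Matrix (Fin q) (Fin p) ℂ)
    (t : Matrix (Fin s) (Fin p) ℂ) (y : Matrix (Fin s) (Fin q) ℂ) (g : ℂ →ₗ[ℚ] ℚ) :
    (tri 1 x t y).map g ∈ h3_S f x t y := by
  rw [h3_mem_S]
  refine ⟨g, (degTwo f x t y).map g, ?_, ?_⟩
  · intro θ hθ
    have h1 := (mem_killer.1 hθ).2
    have h2 : (θ * (degTwo f x t y).map g).trace = g ((cast θ * degTwo f x t y).trace) := by
      simp only [Matrix.trace, Matrix.diag_apply, Matrix.mul_apply, map_sum, Matrix.map_apply,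
        cast]
      refine Finset.sum_congr rfl fun i _ => Finset.sum_congr rfl fun j _ => ?_
      have : (algebraMap ℚ ℂ (θ i j)) * degTwo f x t y j i = (θ i j) • degTwo f x t y j i := by
        rw [Algebra.smul_def]
      rw [this, map_smul, smul_eq_mul]
    rw [h2, h1, map_zero]
  · rw [h3_tri_map, h3_map_degTwo]
    congr 1
    abel

/-- Upper bound for the dimension of the rational hull. -/
theorem finrank_rationalHull_le (f : ℂ →ₗ[ℚ] ℚ) (hf : f 1 = 1) (x : Matrix (Fin q) (Fin p) ℂ)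
    (t : Matrix (Fin s) (Fin p) ℂ) (y : Matrix (Fin s) (Fin q) ℂ) :
    Module.finrank ℚ (rationalHull (tri 1 x t y)) + Module.finrank ℚ (killer f x t y) ≤
      Module.finrank ℚ (entrySpan x y) + s * p := by
  have hle : rationalHull (tri 1 x t y) ≤ h3_S f x t y := by
    unfold rationalHull
    refine sInf_le ⟨h3_comm f hf x t y, ?_⟩
    exact h3_mem_span _ _ (h3_T_mem f x t y)
  have h1 := h3_finrank_S f x t y
  have h2 : Module.finrank ℚ (rationalHull (tri 1 x t y)) ≤ Module.finrank ℚ (h3_S f x t y) :=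
    Submodule.finrank_mono hle
  omega

end Pool.Agent.LibMT49
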