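import Pool.Agent.LibMT49.H2

set_option autoImplicit false
open Complex Matrix

namespace Pool.Agent.LibMT49

variable {p q s : ℕ}

/-- A rational space whose complexification contains `T` contains all `g(T)`. -/
theorem H4_map_mem {n : Type} [Fintype n] {L : Submodule ℚ (Matrix n n ℚ)} {T : Matrix n n ℂ}
    (hT : T ∈ Submodule.span ℂ
      ((fun M : Matrix n n ℚ => M.map (algebraMap ℚ ℂ)) '' (L : Set _)))
    (g : ℂ →ₗ[ℚ] ℚ) : T.map g ∈ L := by
  induction hT using Submodule.span_induction generalizing g with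
  | mem x hx =>
    obtain ⟨M, hM, rfl⟩ := hx
    have : (M.map (algebraMap ℚ ℂ)).map g = (g 1) • M := by
      ext i j
      simp only [Matrix.map_apply, Matrix.smul_apply, smul_eq_mul]
      rw [Algebra.algebraMap_eq_smul_one, map_smul, smul_eq_mul, mul_comm]
    simp only
    rw [this]
    exact L.smul_mem _ hM
  | zero =>
    have : (0 : Matrix n n ℂ).map g = 0 := by ext i j; simp
    rw [this]
    exact L.zero_mem
  | add x y _ _ hx hy =>
    have : (x + y).map g = x.map g + y.map g := by ext i j; simp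
    rw [this]
    exact L.add_mem (hx g) (hy g)
  | smul c x _ hx =>
    have := hx (g ∘ₗ (LinearMap.mulLeft ℚ c))
    have e : (c • x).map g = x.map (g ∘ₗ (LinearMap.mulLeft ℚ c)) := by
      ext i j; simp
    rw [e]
    exact this

theorem H4_hull_map {n : Type} [Fintype n] (T : Matrix n n ℂ) (g : ℂ →ₗ[ℚ] ℚ) :
    T.map g ∈ rationalHull T := by
  rw [rationalHull, Submodule.mem_sInf]
  intro L hL
  exact H4_map_mem hL.2 g

theorem H4_hull_comm {n : Type} [Fintype n] (T : Matrix n n ℂ) {A B : Matrix n n ℚ}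
    (hA : A ∈ rationalHull T) (hB : B ∈ rationalHull T) : A * B - B * A ∈ rationalHull T := by
  rw [rationalHull, Submodule.mem_sInf] at hA hB ⊢
  intro L hL
  exact hL.1 A (hA L hL) B (hB L hL)

theorem H4_tri_map (g : ℂ →ₗ[ℚ] ℚ) (x : Matrix (Fin q) (Fin p) ℂ)
    (t : Matrix (Fin s) (Fin p) ℂ) (y : Matrix (Fin s) (Fin q) ℂ) :
    (tri 1 x t y).map g = tri (g 1) (x.map g) (t.map g) (y.map g) := by
  have h2 : g 2 = 2 * g 1 := by
    have : (2 : ℂ) = (2 : ℚ) • (1 : ℂ) := by
      rw [Rat.smul_def]; norm_num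
    rw [this, map_smul, smul_eq_mul]
  unfold tri
  rw [fromBlocks_map, fromBlocks_map, fromRows_map]
  congr 1
  · ext i j; simp
  · ext i j; simp
  · congr 1
    · ext i j; by_cases h : i = j <;> simp [Matrix.one_apply, h]
    · ext i j; simp
    · ext i j; by_cases h : i = j <;> simp [Matrix.one_apply, h, h2]

/-- `tri` as a linear map. -/
noncomputable def H4_triL (p q s : ℕ) :
    (ℚ × Matrix (Fin q) (Fin p) ℚ × Matrix (Fin s) (Fin q) ℚ) × Matrix (Fin s) (Fin p) ℚ →ₗ[ℚ]
      Matrix (Fin p ⊕ Fin q ⊕ Fin s) (Fin p ⊕ Fin q ⊕ Fin s) ℚ where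
  toFun u := tri u.1.1 u.1.2.1 u.2 u.1.2.2
  map_add' u v := by
    unfold tri
    ext i j
    rcases i with i | i | i <;> rcases j with j | j | j <;>
      simp [fromRows_apply_inl, fromRows_apply_inr, add_mul, mul_add]
  map_smul' c u := by
    unfold tri
    ext i j
    rcases i with i | i | i <;> rcases j with j | j | j <;>
      simp [fromRows_apply_inl, fromRows_apply_inr, mul_assoc, mul_left_comm]

theorem H4_triL_apply (u : (ℚ × Matrix (Fin q) (Fin p) ℚ × Matrix (Fin s) (Fin q) ℚ) ×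
    Matrix (Fin s) (Fin p) ℚ) : H4_triL p q s u = tri u.1.1 u.1.2.1 u.2 u.1.2.2 := rfl

theorem H4_triL_injective (hqs : 0 < q + s) : Function.Injective (H4_triL p q s) := by
  intro u v huv
  rw [H4_triL_apply, H4_triL_apply] at huv
  unfold tri at huv
  rw [fromBlocks_inj, fromBlocks_inj] at huv
  obtain ⟨-, -, h1, h2, -, h3, h4⟩ := huv
  have h5 := congrArg toRows₁ h1
  have h6 := congrArg toRows₂ h1
  rw [toRows₁_fromRows, toRows₁_fromRows] at h5
  rw [toRows₂_fromRows, toRows₂_fromRows] at h6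
  have h7 : u.1.1 = v.1.1 := by
    by_cases hq : 0 < q
    · have := congrFun (congrFun h2 ⟨0, hq⟩) ⟨0, hq⟩
      simpa using this
    · have hs : 0 < s := by omega
      have := congrFun (congrFun h4 ⟨0, hs⟩) ⟨0, hs⟩
      simpa using this
  exact Prod.ext (Prod.ext h7 (Prod.ext h5 h3)) h6

/-- The trace pairing. -/
noncomputable def H4_pair (p s : ℕ) :
    Matrix (Fin p) (Fin s) ℚ →ₗ[ℚ] Module.Dual ℚ (Matrix (Fin s) (Fin p) ℚ) :=
  LinearMap.mk₂ ℚ (fun θ S => (θ * S).trace)
    (fun a b c => by rw [Matrix.add_mul, Matrix.trace_add])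
    (fun a b c => by rw [Matrix.smul_mul, Matrix.trace_smul])
    (fun a b c => by rw [Matrix.mul_add, Matrix.trace_add])
    (fun a b c => by rw [Matrix.mul_smul, Matrix.trace_smul])

theorem H4_pair_apply (θ : Matrix (Fin p) (Fin s) ℚ) (S : Matrix (Fin s) (Fin p) ℚ) :
    H4_pair p s θ S = (θ * S).trace := rfl

theorem H4_pair_surjective : Function.Surjective (H4_pair p s) := by
  intro φ
  refine ⟨Matrix.of fun j i => φ (Matrix.single i j 1), ?_⟩
  refine LinearMap.ext fun S => ?_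
  rw [H4_pair_apply]
  conv_rhs => rw [Matrix.matrix_eq_sum_single S]
  simp only [map_sum, Matrix.trace, Matrix.diag_apply, Matrix.mul_apply, Matrix.of_apply]
  rw [Finset.sum_comm]
  refine Finset.sum_congr rfl fun i _ => Finset.sum_congr rfl fun j _ => ?_
  have : Matrix.single i j (S i j) = S i j • Matrix.single i j (1 : ℚ) := by
    rw [Matrix.smul_single, smul_eq_mul, mul_one]
  rw [this, map_smul, smul_eq_mul, mul_comm]

theorem H4_trace_map (θ : Matrix (Fin p) (Fin s) ℚ) (M : Matrix (Fin s) (Fin p) ℂ)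
    (g : ℂ →ₗ[ℚ] ℚ) : g ((cast θ * M).trace) = (θ * M.map g).trace := by
  simp only [Matrix.trace, Matrix.diag_apply, Matrix.mul_apply, map_sum, cast, Matrix.map_apply]
  refine Finset.sum_congr rfl fun i _ => Finset.sum_congr rfl fun j _ => ?_
  rw [← Algebra.smul_def, map_smul, smul_eq_mul]

theorem H4_eq_zero {c : ℂ} (h : ∀ g : ℂ →ₗ[ℚ] ℚ, g c = 0) : c = 0 := by
  exact (Module.forall_dual_apply_eq_zero_iff ℚ c).1 h

theorem H4_degTwo_map (f g : ℂ →ₗ[ℚ] ℚ) (x : Matrix (Fin q) (Fin p) ℂ)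
    (t : Matrix (Fin s) (Fin p) ℂ) (y : Matrix (Fin s) (Fin q) ℂ) :
    (degTwo f x t y).map g = t.map g - g 1 • t.map f - y.map g * x.map f + y.map f * x.map g := by
  ext i j
  simp only [degTwo, Matrix.map_apply, Matrix.add_apply, Matrix.sub_apply, Matrix.mul_apply,
    map_add, map_sub, map_sum, cast, Matrix.smul_apply, smul_eq_mul]
  have h1 : ∀ r : ℚ, g (algebraMap ℚ ℂ r) = g 1 * r := fun r => by
    rw [Algebra.algebraMap_eq_smul_one, map_smul, smul_eq_mul, mul_comm]
  have h2 : ∀ (c : ℂ) (r : ℚ), g (c * algebraMap ℚ ℂ r) = g c * r := fun c r => by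
    rw [mul_comm, ← Algebra.smul_def, map_smul, smul_eq_mul, mul_comm]
  have h3 : ∀ (c : ℂ) (r : ℚ), g (algebraMap ℚ ℂ r * c) = r * g c := fun c r => by
    rw [← Algebra.smul_def, map_smul, smul_eq_mul]
  simp only [h1, h2, h3]

/-- The part of degree two of the hull. -/
theorem H4_mem_killer (f : ℂ →ₗ[ℚ] ℚ) (hf : f 1 = 1)
    (x : Matrix (Fin q) (Fin p) ℂ)
    (t : Matrix (Fin s) (Fin p) ℂ) (y : Matrix (Fin s) (Fin q) ℂ) (θ : Matrix (Fin p) (Fin s) ℚ)
    (hθ : ∀ S : Matrix (Fin s) (Fin p) ℚ, tri 0 0 S 0 ∈ rationalHull (tri 1 x t y) →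
      (θ * S).trace = 0) : θ ∈ killer f x t y := by
  have hg : ∀ g : ℂ →ₗ[ℚ] ℚ, tri (g 1) (x.map g) (t.map g) (y.map g) ∈
      rationalHull (tri 1 x t y) := fun g => by
    rw [← H4_tri_map]; exact H4_hull_map _ g
  rw [mem_killer]
  constructor
  · intro g h hg1 hh1
    apply hθ
    have := H4_hull_comm _ (hg g) (hg h)
    rw [tri_comm, hg1, hh1] at this
    simpa using this
  · apply H4_eq_zero
    intro g
    rw [H4_trace_map]
    apply hθ
    have h1 := H4_hull_comm _ (hg f) (hg g)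
    have h2 := H4_hull_comm _ (hg f) h1
    rw [tri_comm] at h1
    rw [tri_comm, tri_comm] at h2
    rw [hf] at h1 h2
    have h3 := (rationalHull (tri 1 x t y)).smul_mem (1/2 : ℚ)
      ((rationalHull (tri 1 x t y)).sub_mem h2 h1)
    have e : (1/2 : ℚ) • (tri 0 ((1:ℚ) • ((1:ℚ) • x.map g - g 1 • x.map f) - (0:ℚ) • x.map f)
        ((2 * 1 : ℚ) • ((2 * 1 : ℚ) • t.map g - (2 * g 1) • t.map f + y.map f * x.map g -
          y.map g * x.map f) - (2 * 0 : ℚ) • t.map f +
          y.map f * ((1:ℚ) • x.map g - g 1 • x.map f) - ((1:ℚ) • y.map g - g 1 • y.map f) *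
          x.map f) ((1:ℚ) • ((1:ℚ) • y.map g - g 1 • y.map f) - (0:ℚ) • y.map f) -
        tri 0 ((1:ℚ) • x.map g - g 1 • x.map f)
          ((2 * 1 : ℚ) • t.map g - (2 * g 1) • t.map f + y.map f * x.map g -
          y.map g * x.map f) ((1:ℚ) • y.map g - g 1 • y.map f)) =
        tri 0 0 ((degTwo f x t y).map g) 0 := by
      rw [H4_degTwo_map]
      have e2 : ∀ (X : Matrix (Fin q) (Fin p) ℚ) (S : Matrix (Fin s) (Fin p) ℚ)
          (Y : Matrix (Fin s) (Fin q) ℚ), tri 0 X S Y = H4_triL p q s ((0, X, Y), S) :=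
        fun X S Y => rfl
      rw [e2, e2, e2, ← map_sub, ← map_smul]
      congr 1
      refine Prod.ext (Prod.ext ?_ (Prod.ext ?_ ?_)) ?_
      · simp
      · simp
      · simp
      · simp only [Prod.smul_snd, Prod.snd_sub, Matrix.mul_sub, Matrix.sub_mul, Matrix.mul_smul,
          Matrix.smul_mul]
        module
    rw [e] at h3
    exact h3

/-- Evaluation of functionals on the span of the entries. -/
noncomputable def H4_eval (x : Matrix (Fin q) (Fin p) ℂ) (y : Matrix (Fin s) (Fin q) ℂ) :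
    Module.Dual ℚ (entrySpan x y) →ₗ[ℚ]
      ℚ × Matrix (Fin q) (Fin p) ℚ × Matrix (Fin s) (Fin q) ℚ where
  toFun φ := (φ ⟨1, Submodule.subset_span (Or.inl (Or.inl rfl))⟩,
    Matrix.of fun i j => φ ⟨x i j, Submodule.subset_span (Or.inl (Or.inr ⟨(i, j), rfl⟩))⟩,
    Matrix.of fun i j => φ ⟨y i j, Submodule.subset_span (Or.inr ⟨(i, j), rfl⟩)⟩)
  map_add' φ ψ := by
    refine Prod.ext ?_ (Prod.ext ?_ ?_)
    · simp
    · ext i j; simp
    · ext i j; simp
  map_smul' c φ := by
    refine Prod.ext ?_ (Prod.ext ?_ ?_)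
    · simp
    · ext i j; simp
    · ext i j; simp

theorem H4_eval_injective (x : Matrix (Fin q) (Fin p) ℂ) (y : Matrix (Fin s) (Fin q) ℂ) :
    Function.Injective (H4_eval x y) := by
  rw [← LinearMap.ker_eq_bot, LinearMap.ker_eq_bot']
  intro φ hφ
  have h1 : φ ⟨1, Submodule.subset_span (Or.inl (Or.inl rfl))⟩ = 0 := congrArg Prod.fst hφ
  have h2 : ∀ i j, φ ⟨x i j, Submodule.subset_span (Or.inl (Or.inr ⟨(i, j), rfl⟩))⟩ = 0 :=
    fun i j => congrFun (congrFun (congrArg (fun u => u.2.1) hφ) i) j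
  have h3 : ∀ i j, φ ⟨y i j, Submodule.subset_span (Or.inr ⟨(i, j), rfl⟩)⟩ = 0 :=
    fun i j => congrFun (congrFun (congrArg (fun u => u.2.2) hφ) i) j
  obtain ⟨ψ, hψ⟩ := LinearMap.exists_extend φ
  have h4 : ∀ c ∈ entrySpan x y, ψ c = 0 := by
    intro c hc
    induction hc using Submodule.span_induction with
    | mem c hc =>
      rcases hc with (rfl | ⟨⟨i, j⟩, rfl⟩) | ⟨⟨i, j⟩, rfl⟩
      · exact (LinearMap.congr_fun hψ _).trans h1
      · exact (LinearMap.congr_fun hψ ⟨x i j, _⟩).trans (h2 i j)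
      · exact (LinearMap.congr_fun hψ ⟨y i j, _⟩).trans (h3 i j)
    | zero => exact map_zero ψ
    | add a b _ _ ha hb => rw [map_add, ha, hb, add_zero]
    | smul a b _ hb => rw [map_smul, hb, smul_zero]
  ext ⟨c, hc⟩
  exact (LinearMap.congr_fun hψ ⟨c, hc⟩).symm.trans (h4 c hc)

/-- Lower bound for the dimension of the rational hull. -/
theorem le_finrank_rationalHull (hqs : 0 < q + s) (f : ℂ →ₗ[ℚ] ℚ) (hf : f 1 = 1)
    (x : Matrix (Fin q) (Fin p) ℂ)
    (t : Matrix (Fin s) (Fin p) ℂ) (y : Matrix (Fin s) (Fin q) ℂ) :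
    Module.finrank ℚ (entrySpan x y) + s * p ≤
      Module.finrank ℚ (rationalHull (tri 1 x t y)) + Module.finrank ℚ (killer f x t y) := by
  set L := rationalHull (tri 1 x t y) with hL
  set L' := L.comap (H4_triL p q s) with hL'
  have h1 : Module.finrank ℚ L' ≤ Module.finrank ℚ L := by
    refine LinearMap.finrank_le_finrank_of_injective
      (f := (H4_triL p q s).restrict (p := L') (q := L) fun u hu => hu) ?_
    intro u v huv
    exact Subtype.ext (H4_triL_injective hqs (congrArg Subtype.val huv))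
  let F : L' →ₗ[ℚ] (ℚ × Matrix (Fin q) (Fin p) ℚ × Matrix (Fin s) (Fin q) ℚ) :=
    (LinearMap.fst ℚ _ _) ∘ₗ L'.subtype
  have h2 := LinearMap.finrank_range_add_finrank_ker F
  let L2 : Submodule ℚ (Matrix (Fin s) (Fin p) ℚ) := L'.comap (LinearMap.inr ℚ _ _)
  have h3 : Module.finrank ℚ L2 ≤ Module.finrank ℚ (LinearMap.ker F) := by
    let G : L2 →ₗ[ℚ] LinearMap.ker F :=
      { toFun := fun S => ⟨⟨(0, S.1), S.2⟩, rfl⟩
        map_add' := fun a b => by
          apply Subtype.ext; apply Subtype.ext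
          exact Prod.ext (by simp) (by simp)
        map_smul' := fun a b => by
          apply Subtype.ext; apply Subtype.ext
          exact Prod.ext (by simp) (by simp) }
    refine LinearMap.finrank_le_finrank_of_injective (f := G) ?_
    intro a b hab
    apply Subtype.ext
    exact congrArg (fun u => u.1.1.2) hab
  have h4 : Module.finrank ℚ (entrySpan x y) ≤ Module.finrank ℚ (LinearMap.range F) := by
    have hfin : Module.Finite ℚ (entrySpan x y) :=
      Module.Finite.span_of_finite ℚ (((Set.finite_singleton _).union (Set.finite_range _)).union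
        (Set.finite_range _))
    rw [← Subspace.dual_finrank_eq, ← LinearMap.finrank_range_of_inj (H4_eval_injective x y)]
    refine Submodule.finrank_mono ?_
    rintro _ ⟨φ, rfl⟩
    obtain ⟨ψ, hψ⟩ := LinearMap.exists_extend φ
    have hmem : tri (ψ 1) (x.map ψ) (t.map ψ) (y.map ψ) ∈ L := by
      rw [← H4_tri_map]; exact H4_hull_map _ ψ
    refine ⟨⟨((ψ 1, x.map ψ, y.map ψ), t.map ψ), hmem⟩, ?_⟩
    refine Prod.ext ?_ (Prod.ext ?_ ?_)
    · exact LinearMap.congr_fun hψ ⟨1, _⟩
    · ext i j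
      exact LinearMap.congr_fun hψ ⟨x i j, _⟩
    · ext i j
      exact LinearMap.congr_fun hψ ⟨y i j, _⟩
  have h5 : Module.finrank ℚ L2 + Module.finrank ℚ L2.dualAnnihilator = s * p := by
    have := Subspace.finrank_add_finrank_dualAnnihilator_eq L2
    rwa [Module.finrank_matrix, Module.finrank_self, mul_one, Fintype.card_fin,
      Fintype.card_fin] at this
  have h6 : Module.finrank ℚ L2.dualAnnihilator ≤ Module.finrank ℚ (killer f x t y) := by
    refine le_trans ?_ (Submodule.finrank_map_le (H4_pair p s) (killer f x t y))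
    refine Submodule.finrank_mono ?_
    intro φ hφ
    obtain ⟨θ, rfl⟩ := H4_pair_surjective φ
    refine ⟨θ, H4_mem_killer f hf x t y θ ?_, rfl⟩
    intro S hS
    rw [Submodule.mem_dualAnnihilator] at hφ
    exact hφ S hS
  omega

end Pool.Agent.LibMT49
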