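import Pool.Agent.LibMT49.H2

set_option autoImplicit false
open Complex Matrix

namespace Pool.Agent.LibMT49

variable {p q s : ℕ}

/-- `log z / (2πi)`. -/
noncomputable def e0 (z : ℂ) : ℂ := (2 * Real.pi * I)⁻¹ * Complex.log z

/-- `log (1 - z) / (2πi)`. -/
noncomputable def e1 (z : ℂ) : ℂ := (2 * Real.pi * I)⁻¹ * Complex.log (1 - z)

/-- The constant part of the component of degree two. -/
noncomputable def TateData.degTwoConst (V : TateData p q s) (f : ℂ →ₗ[ℚ] ℚ) :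
    Matrix (Fin s) (Fin p) ℂ :=
  degTwo f ((2 * Real.pi * I)⁻¹ • V.Vc)
    (((2 * Real.pi * I) ^ 2)⁻¹ • ((2 : ℂ) • V.lam - V.Wc * V.Vc)) ((2 * Real.pi * I)⁻¹ • V.Wc)

end Pool.Agent.LibMT49
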