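import Pool.Agent.LibMT49.H5b

set_option autoImplicit false
open Complex Matrix

namespace Pool.Agent.LibMT49

variable {p q s : ℕ}

theorem H5_t_eq (V : TateData p q s) (z : ℂ) (R0 R1 : Matrix (Fin s) (Fin p) ℚ)
    (h0 : cast V.W0 * V.Vc - V.Wc * cast V.V0 = (2 * Real.pi * I) • cast R0)
    (h1 : cast V.W1 * V.Vc - V.Wc * cast V.V1 = (2 * Real.pi * I) • cast R1) :
    ∃ κ : ℂ, V.t z = ((2 * Real.pi * I) ^ 2)⁻¹ • ((2 : ℂ) • V.lam - V.Wc * V.Vc) +
      e0 z • cast R0 + e1 z • cast R1 + κ • cast V.dilogCoeff := by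
  have ha : (2 * Real.pi * I : ℂ) ≠ 0 := Complex.two_pi_I_ne_zero
  refine ⟨-(((2 * Real.pi * I) ^ 2)⁻¹ *
    (Complex.log z * Complex.log (1 - z) + 2 * dilog z)), ?_⟩
  have h0' : cast V.W0 * V.Vc = V.Wc * cast V.V0 + (2 * Real.pi * I) • cast R0 := by
    rw [← h0]; abel
  have h1' : cast V.W1 * V.Vc = V.Wc * cast V.V1 + (2 * Real.pi * I) • cast R1 := by
    rw [← h1]; abel
  rw [TateData.t, TateData.l, TateData.w, TateData.v, TateData.dilogCoeff, e0, e1]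
  simp only [Matrix.add_mul, Matrix.mul_add, Matrix.smul_mul, Matrix.mul_smul, cast_mul, cast_sub,
    h0', h1']
  have e : ∀ c : ℂ, ((2 * Real.pi * I : ℂ) ^ 2)⁻¹ * ((2 * Real.pi * I) * c) =
      (2 * Real.pi * I)⁻¹ * c := by
    intro c; field_simp
  rw [show ((2 * Real.pi * I : ℂ))⁻¹ * Complex.log z =
    ((2 * Real.pi * I : ℂ) ^ 2)⁻¹ * ((2 * Real.pi * I) * Complex.log z) from (e _).symm,
    show ((2 * Real.pi * I : ℂ))⁻¹ * Complex.log (1 - z) =
    ((2 * Real.pi * I : ℂ) ^ 2)⁻¹ * ((2 * Real.pi * I) * Complex.log (1 - z)) from (e _).symm]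
  module

/-- The component of degree two of the Hodge operator is constant up to a multiple of the
coefficient matrix of the dilogarithm. -/
theorem degTwo_eq (V : TateData p q s) (f : ℂ →ₗ[ℚ] ℚ) (hf : f 1 = 1) (z : ℂ) :
    ∃ c : ℂ, degTwo f (V.x z) (V.t z) (V.y z) = V.degTwoConst f + c • cast V.dilogCoeff := by
  have ha : (2 * Real.pi * I : ℂ) ≠ 0 := Complex.two_pi_I_ne_zero
  obtain ⟨R0, hR0⟩ := V.mono0
  obtain ⟨R1, hR1⟩ := V.mono1
  obtain ⟨κ, hκ⟩ := H5_t_eq V z R0 R1 hR0 hR1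
  have h0 : cast V.W0 * ((2 * Real.pi * I)⁻¹ • V.Vc) - ((2 * Real.pi * I)⁻¹ • V.Wc) * cast V.V0 =
      cast R0 := by
    rw [Matrix.mul_smul, Matrix.smul_mul, ← smul_sub, hR0, smul_smul, inv_mul_cancel₀ ha, one_smul]
  have h1 : cast V.W1 * ((2 * Real.pi * I)⁻¹ • V.Vc) - ((2 * Real.pi * I)⁻¹ • V.Wc) * cast V.V1 =
      cast R1 := by
    rw [Matrix.mul_smul, Matrix.smul_mul, ← smul_sub, hR1, smul_smul, inv_mul_cancel₀ ha, one_smul]
  have h0f : cast (((2 * Real.pi * I : ℂ)⁻¹ • V.Wc).map f) * cast V.V0 =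
      cast V.W0 * cast (((2 * Real.pi * I : ℂ)⁻¹ • V.Vc).map f) - cast R0 := by
    have := congrArg (fun M => M.map f) h0
    simp only [H5_map_sub, H5_map_mul, H5_map_mul', H5_map_cast, hf, one_smul] at this
    rw [← this, cast_sub, cast_mul, cast_mul]
    abel
  have h1f : cast (((2 * Real.pi * I : ℂ)⁻¹ • V.Wc).map f) * cast V.V1 =
      cast V.W1 * cast (((2 * Real.pi * I : ℂ)⁻¹ • V.Vc).map f) - cast R1 := by
    have := congrArg (fun M => M.map f) h1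
    simp only [H5_map_sub, H5_map_mul, H5_map_mul', H5_map_cast, hf, one_smul] at this
    rw [← this, cast_sub, cast_mul, cast_mul]
    abel
  refine ⟨κ - (f κ : ℂ) + ((f (e0 z) : ℂ) * e1 z - e0 z * (f (e1 z) : ℂ)), ?_⟩
  rw [degTwo, TateData.degTwoConst, degTwo, hκ, H5_x_eq, H5_y_eq]
  set cV := (2 * Real.pi * I : ℂ)⁻¹ • V.Vc with hcV
  set cW := (2 * Real.pi * I : ℂ)⁻¹ • V.Wc with hcW
  set τ := ((2 * Real.pi * I : ℂ) ^ 2)⁻¹ • ((2 : ℂ) • V.lam - V.Wc * V.Vc) with hτ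
  have hmap : (τ + e0 z • cast R0 + e1 z • cast R1 + κ • cast V.dilogCoeff).map f =
      τ.map f + f (e0 z) • R0 + f (e1 z) • R1 + f κ • V.dilogCoeff := by
    have := H5_map f (τ + e0 z • cast R0 + e1 z • cast R1) κ 0 V.dilogCoeff 0
    simp only [zero_smul, add_zero, map_zero] at this
    rw [this, H5_map]
  rw [hmap, H5_map, H5_map]
  have h0' : cast V.W0 * cV = cW * cast V.V0 + cast R0 := by rw [← h0]; abel
  have h1' : cast V.W1 * cV = cW * cast V.V1 + cast R1 := by rw [← h1]; abel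
  rw [TateData.dilogCoeff]
  simp only [cast_add, cast_sub, cast_smul, cast_mul, Matrix.add_mul, Matrix.mul_add,
    Matrix.smul_mul, Matrix.mul_smul, h0', h1', h0f, h1f]
  module

end Pool.Agent.LibMT49
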