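import Pool.Agent.LibMT49.H5

set_option autoImplicit false
open Complex Matrix

namespace Pool.Agent.LibMT49

variable {p q s : ℕ}

theorem H5_x_eq (V : TateData p q s) (z : ℂ) :
    V.x z = (2 * Real.pi * I)⁻¹ • V.Vc + e0 z • cast V.V0 + e1 z • cast V.V1 := by
  rw [TateData.x, TateData.v, smul_add, smul_add, smul_smul, smul_smul, e0, e1]

theorem H5_y_eq (V : TateData p q s) (z : ℂ) :
    V.y z = (2 * Real.pi * I)⁻¹ • V.Wc + e0 z • cast V.W0 + e1 z • cast V.W1 := by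
  rw [TateData.y, TateData.w, smul_add, smul_add, smul_smul, smul_smul, e0, e1]

theorem H5_map {m n : Type} (g : ℂ →ₗ[ℚ] ℚ) (A : Matrix m n ℂ) (a b : ℂ) (B C : Matrix m n ℚ) :
    (A + a • cast B + b • cast C).map g = A.map g + g a • B + g b • C := by
  ext i j
  have h2 : ∀ (c : ℂ) (r : ℚ), g (c * algebraMap ℚ ℂ r) = g c * r := fun c r => by
    rw [mul_comm, ← Algebra.smul_def, map_smul, smul_eq_mul, mul_comm]
  simp only [cast, Matrix.map_apply, Matrix.add_apply, Matrix.smul_apply, smul_eq_mul, map_add, h2]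

theorem H5_map_mul {m n k : Type} [Fintype n] (g : ℂ →ₗ[ℚ] ℚ) (A : Matrix m n ℚ)
    (B : Matrix n k ℂ) : (cast A * B).map g = A * B.map g := by
  ext i j
  simp only [Matrix.map_apply, Matrix.mul_apply, cast, map_sum]
  refine Finset.sum_congr rfl fun l _ => ?_
  rw [← Algebra.smul_def, map_smul, smul_eq_mul]

theorem H5_map_mul' {m n k : Type} [Fintype n] (g : ℂ →ₗ[ℚ] ℚ) (A : Matrix m n ℂ)
    (B : Matrix n k ℚ) : (A * cast B).map g = A.map g * B := by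
  ext i j
  simp only [Matrix.map_apply, Matrix.mul_apply, cast, map_sum]
  refine Finset.sum_congr rfl fun l _ => ?_
  rw [mul_comm, ← Algebra.smul_def, map_smul, smul_eq_mul, mul_comm]

theorem H5_map_sub {m n : Type} (g : ℂ →ₗ[ℚ] ℚ) (A B : Matrix m n ℂ) :
    (A - B).map g = A.map g - B.map g := by
  ext i j
  simp

theorem H5_map_cast {m n : Type} (g : ℂ →ₗ[ℚ] ℚ) (A : Matrix m n ℚ) :
    (cast A).map g = g 1 • A := by
  ext i j
  simp only [Matrix.map_apply, cast, Matrix.smul_apply, smul_eq_mul]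
  rw [Algebra.algebraMap_eq_smul_one, map_smul, smul_eq_mul, mul_comm]

theorem H5_mono (A : Matrix (Fin s) (Fin q) ℚ) (B : Matrix (Fin q) (Fin p) ℂ)
    (C : Matrix (Fin s) (Fin q) ℂ) (D : Matrix (Fin q) (Fin p) ℚ)
    (h : ∃ R : Matrix (Fin s) (Fin p) ℚ, cast A * B - C * cast D = (2 * Real.pi * I) • cast R) :
    ∃ R : Matrix (Fin s) (Fin p) ℚ,
      cast A * ((2 * Real.pi * I)⁻¹ • B) - ((2 * Real.pi * I)⁻¹ • C) * cast D = cast R := by
  obtain ⟨R, hR⟩ := h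
  refine ⟨R, ?_⟩
  rw [Matrix.mul_smul, Matrix.smul_mul, ← smul_sub, hR, smul_smul,
    inv_mul_cancel₀ Complex.two_pi_I_ne_zero, one_smul]

/-- The symbol at `z`. -/
theorem symbol_eq (V : TateData p q s) (z : ℂ) (g h : ℂ →ₗ[ℚ] ℚ) (hg : g 1 = 0) (hh : h 1 = 0) :
    (V.y z).map g * (V.x z).map h - (V.y z).map h * (V.x z).map g =
      (((2 * Real.pi * I)⁻¹ • V.Wc).map g * ((2 * Real.pi * I)⁻¹ • V.Vc).map h -
        ((2 * Real.pi * I)⁻¹ • V.Wc).map h * ((2 * Real.pi * I)⁻¹ • V.Vc).map g) +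
      (g (e0 z) * h (e1 z) - h (e0 z) * g (e1 z)) • V.dilogCoeff := by
  obtain ⟨R0, hR0⟩ := H5_mono _ _ _ _ V.mono0
  obtain ⟨R1, hR1⟩ := H5_mono _ _ _ _ V.mono1
  have key : ∀ (R : Matrix (Fin s) (Fin p) ℚ) (A : Matrix (Fin s) (Fin q) ℚ)
      (B : Matrix (Fin q) (Fin p) ℂ) (C : Matrix (Fin s) (Fin q) ℂ)
      (D : Matrix (Fin q) (Fin p) ℚ), cast A * B - C * cast D = cast R →
      ∀ k : ℂ →ₗ[ℚ] ℚ, k 1 = 0 → A * B.map k = C.map k * D := by
    intro R A B C D h k hk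
    have := congrArg (fun M => M.map k) h
    simp only [H5_map_sub, H5_map_mul, H5_map_mul', H5_map_cast, hk, zero_smul] at this
    exact sub_eq_zero.1 this
  rw [H5_x_eq, H5_y_eq]
  set cV := (2 * Real.pi * I : ℂ)⁻¹ • V.Vc with hcV
  set cW := (2 * Real.pi * I : ℂ)⁻¹ • V.Wc with hcW
  rw [H5_map, H5_map, H5_map, H5_map]
  have a1 := key R0 _ _ _ _ hR0 g hg
  have a2 := key R0 _ _ _ _ hR0 h hh
  have a3 := key R1 _ _ _ _ hR1 g hg
  have a4 := key R1 _ _ _ _ hR1 h hh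
  rw [TateData.dilogCoeff]
  simp only [Matrix.add_mul, Matrix.mul_add, Matrix.smul_mul, Matrix.mul_smul]
  rw [a1, a2, a3, a4]
  module

end Pool.Agent.LibMT49
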