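import Pool.Agent.LibMT49.H5

set_option autoImplicit false
open Complex Matrix

namespace Pool.Agent.LibMT49

variable {p q s : ℕ}

/-- The rational space spanned by `1` and the entries of `Vc / 2πi` and `Wc / 2πi`. -/
noncomputable def TateData.constSpan (V : TateData p q s) : Submodule ℚ ℂ :=
  entrySpan ((2 * Real.pi * I)⁻¹ • V.Vc) ((2 * Real.pi * I)⁻¹ • V.Wc)

/-- The evaluation. -/
private noncomputable def H6_ev (z : ℂ) : (ℂ × ℚ × ℚ) →ₗ[ℚ] ℂ where
  toFun m := m.1 + (m.2.1 : ℂ) * e0 z + (m.2.2 : ℂ) * e1 z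
  map_add' m m' := by
    simp only [Prod.fst_add, Prod.snd_add, Rat.cast_add]
    ring
  map_smul' c m := by
    simp only [Prod.smul_fst, Prod.smul_snd, smul_eq_mul, Rat.cast_mul, RingHom.id_apply,
      Rat.smul_def]
    ring

/-- The universal space of entries. -/
private noncomputable def H6_M (V : TateData p q s) : Submodule ℚ (ℂ × ℚ × ℚ) :=
  Submodule.span ℚ ({((1 : ℂ), (0 : ℚ), (0 : ℚ))} ∪
    (Set.range fun ij : Fin q × Fin p =>
      ((2 * Real.pi * I)⁻¹ * V.Vc ij.1 ij.2, V.V0 ij.1 ij.2, V.V1 ij.1 ij.2)) ∪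
    (Set.range fun ij : Fin s × Fin q =>
      ((2 * Real.pi * I)⁻¹ * V.Wc ij.1 ij.2, V.W0 ij.1 ij.2, V.W1 ij.1 ij.2)))

private theorem H6_map (V : TateData p q s) (z : ℂ) :
    (H6_M V).map (H6_ev z) = entrySpan (V.x z) (V.y z) := by
  unfold H6_M entrySpan
  rw [Submodule.map_span, Set.image_union, Set.image_union, Set.image_singleton,
    ← Set.range_comp, ← Set.range_comp]
  congr 3
  · simp [H6_ev]
  · congr 1
    funext ij
    simp only [Function.comp_apply, H6_ev, LinearMap.coe_mk, AddHom.coe_mk, TateData.x,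
      TateData.v, cast, e0, e1, Matrix.smul_apply, Matrix.add_apply, Matrix.map_apply, smul_eq_mul,
      eq_ratCast]
    ring
  · funext ij
    simp only [Function.comp_apply, H6_ev, LinearMap.coe_mk, AddHom.coe_mk, TateData.y,
      TateData.w, cast, e0, e1, Matrix.smul_apply, Matrix.add_apply, Matrix.map_apply, smul_eq_mul,
      eq_ratCast]
    ring

private theorem H6_fst (V : TateData p q s) {m : ℂ × ℚ × ℚ} (hm : m ∈ H6_M V) :
    m.1 ∈ V.constSpan := by
  have h1 : (H6_M V).map (LinearMap.fst ℚ ℂ (ℚ × ℚ)) ≤ V.constSpan := by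
    unfold H6_M TateData.constSpan entrySpan
    rw [Submodule.map_span, Submodule.span_le]
    rintro _ ⟨m, hm, rfl⟩
    rcases hm with (hm | hm) | hm
    · rw [Set.mem_singleton_iff] at hm
      subst hm
      exact Submodule.subset_span (Or.inl (Or.inl rfl))
    · obtain ⟨ij, rfl⟩ := hm
      exact Submodule.subset_span (Or.inl (Or.inr ⟨ij, rfl⟩))
    · obtain ⟨ij, rfl⟩ := hm
      exact Submodule.subset_span (Or.inr ⟨ij, rfl⟩)
  exact h1 ⟨m, hm, rfl⟩

private theorem H6_fin (V : TateData p q s) : FiniteDimensional ℚ (H6_M V) := by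
  unfold H6_M
  refine FiniteDimensional.span_of_finite ℚ ?_
  exact ((Set.finite_singleton _).union (Set.finite_range _)).union (Set.finite_range _)

/-- Outside the points with `log z`, `log (1 - z)` in the constant span, the rank of the group
generated by the entries drops by at most one. -/
theorem finrank_entrySpan_le (V : TateData p q s) (z z' : ℂ)
    (h : ¬ (e0 z ∈ V.constSpan ∧ e1 z ∈ V.constSpan)) :
    Module.finrank ℚ (entrySpan (V.x z') (V.y z')) ≤
      Module.finrank ℚ (entrySpan (V.x z) (V.y z)) + 1 := by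
  have hfin := H6_fin V
  rw [← H6_map V z, ← H6_map V z']
  refine (Submodule.finrank_map_le (H6_ev z') (H6_M V)).trans ?_
  have h1 := LinearMap.finrank_range_add_finrank_ker ((H6_ev z).domRestrict (H6_M V))
  rw [LinearMap.range_domRestrict] at h1
  by_contra hlt
  have h2 : 2 ≤ Module.finrank ℚ (LinearMap.ker ((H6_ev z).domRestrict (H6_M V))) := by omega
  set κ := LinearMap.ker ((H6_ev z).domRestrict (H6_M V)) with hκ
  let π : κ →ₗ[ℚ] ℚ × ℚ := (LinearMap.snd ℚ ℂ (ℚ × ℚ)) ∘ₗ (H6_M V).subtype ∘ₗ κ.subtype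
  have hmem : ∀ v : κ, v.1.1.1 + (v.1.1.2.1 : ℂ) * e0 z + (v.1.1.2.2 : ℂ) * e1 z = 0 := fun v => v.2
  have hπ : ∀ v : κ, π v = v.1.1.2 := fun _ => rfl
  have hinj : Function.Injective π := by
    rw [injective_iff_map_eq_zero]
    intro v hv
    rw [hπ] at hv
    have h3 := hmem v
    rw [hv] at h3
    apply Subtype.ext
    apply Subtype.ext
    refine Prod.ext ?_ hv
    simpa using h3
  have hfr : Module.finrank ℚ (LinearMap.range π) = Module.finrank ℚ κ :=
    LinearMap.finrank_range_of_inj hinj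
  have h4 : Module.finrank ℚ (ℚ × ℚ) = 2 := by simp
  have htop : LinearMap.range π = ⊤ := by
    apply Submodule.eq_top_of_finrank_eq
    have h5 := Submodule.finrank_le (LinearMap.range π)
    omega
  have hsurj : Function.Surjective π := LinearMap.range_eq_top.mp htop
  obtain ⟨v, hv⟩ := hsurj (1, 0)
  obtain ⟨w, hw⟩ := hsurj (0, 1)
  rw [hπ] at hv hw
  have hv' := hmem v
  have hw' := hmem w
  rw [hv] at hv'
  rw [hw] at hw'
  apply h
  constructor
  · have h6 : e0 z = -v.1.1.1 := by
      simp only [Rat.cast_one, Rat.cast_zero, one_mul, zero_mul, add_zero] at hv'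
      linear_combination hv'
    rw [h6]
    exact Submodule.neg_mem _ (H6_fst V v.1.2)
  · have h6 : e1 z = -w.1.1.1 := by
      simp only [Rat.cast_one, Rat.cast_zero, one_mul, zero_mul, add_zero] at hw'
      linear_combination hw'
    rw [h6]
    exact Submodule.neg_mem _ (H6_fst V w.1.2)

end Pool.Agent.LibMT49
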