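import Pool.Agent.LibMT49.H6
import Pool.Agent.LibUE49.T10

set_option autoImplicit false
open Complex Matrix Pool.Agent.LibUE49

namespace Pool.Agent.LibMT49

variable {p q s : ℕ}

/-- The entries of `Vc` and `Wc`. -/
noncomputable def H7_entry (V : TateData p q s) : (Fin q × Fin p) ⊕ (Fin s × Fin q) → ℂ :=
  Sum.elim (fun ij => V.Vc ij.1 ij.2) (fun ij => V.Wc ij.1 ij.2)

theorem H7_span (V : TateData p q s) {c : ℂ} (hc : c ∈ V.constSpan) :
    ∃ (r : ℚ) (f : (Fin q × Fin p) ⊕ (Fin s × Fin q) → ℚ),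
      c = (r : ℂ) + ∑ i, (f i : ℂ) * ((2 * Real.pi * I)⁻¹ * H7_entry V i) := by
  classical
  unfold TateData.constSpan entrySpan at hc
  induction hc using Submodule.span_induction with
  | mem x hx =>
    rcases hx with (hx | ⟨ij, hx⟩) | ⟨ij, hx⟩
    · refine ⟨1, 0, ?_⟩
      rw [Set.mem_singleton_iff] at hx
      simp [hx]
    · refine ⟨0, Pi.single (Sum.inl ij) 1, ?_⟩
      rw [Finset.sum_eq_single (Sum.inl ij)]
      · rw [← hx]
        simp [H7_entry]
      · intro b _ hb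
        simp [Pi.single_eq_of_ne hb]
      · intro h
        exact absurd (Finset.mem_univ _) h
    · refine ⟨0, Pi.single (Sum.inr ij) 1, ?_⟩
      rw [Finset.sum_eq_single (Sum.inr ij)]
      · rw [← hx]
        simp [H7_entry]
      · intro b _ hb
        simp [Pi.single_eq_of_ne hb]
      · intro h
        exact absurd (Finset.mem_univ _) h
  | zero => exact ⟨0, 0, by simp⟩
  | add x y _ _ hx hy =>
    obtain ⟨r, f, hx⟩ := hx
    obtain ⟨r', f', hy⟩ := hy
    refine ⟨r + r', f + f', ?_⟩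
    rw [hx, hy]
    simp only [Pi.add_apply, Rat.cast_add, add_mul, Finset.sum_add_distrib]
    ring
  | smul a x _ hx =>
    obtain ⟨r, f, hx⟩ := hx
    refine ⟨a * r, fun i => a * f i, ?_⟩
    rw [hx, Algebra.smul_def, mul_add, Finset.mul_sum]
    simp only [Rat.cast_mul]
    congr 1
    refine Finset.sum_congr rfl fun i _ => ?_
    rw [show (algebraMap ℚ ℂ) a = (a : ℂ) from rfl]
    ring

theorem H7_clear {ι : Type} [Fintype ι] (r : ℚ) (f : ι → ℚ) :
    ∃ N : ℕ, 0 < N ∧ (∃ m : ℤ, (N : ℚ) * r = m) ∧ ∃ n : ι → ℤ, ∀ i, (N : ℚ) * f i = n i := by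
  classical
  have key : ∀ (x : ℚ) (N : ℕ), x.den ∣ N → ∃ m : ℤ, (N : ℚ) * x = m := by
    rintro x N ⟨k, rfl⟩
    refine ⟨k * x.num, ?_⟩
    push_cast
    rw [← Rat.mul_den_eq_num x]
    ring
  refine ⟨(∏ i, (f i).den) * r.den, Nat.mul_pos (Finset.prod_pos fun i _ => (f i).den_pos)
    r.den_pos, key r _ (dvd_mul_left _ _), ?_⟩
  choose n hn using fun i => key (f i) ((∏ i, (f i).den) * r.den)
    (Dvd.dvd.mul_right (Finset.dvd_prod_of_mem (fun i => (f i).den) (Finset.mem_univ i)) _)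
  exact ⟨n, hn⟩

theorem H7_pow (V : TateData p q s) (e : (Fin q × Fin p) ⊕ (Fin s × Fin q) ≃ Fin (q * (p + s)))
    {w : ℂ} (hw : w ≠ 0) (h : (2 * Real.pi * I)⁻¹ * Complex.log w ∈ V.constSpan) :
    ∃ N : ℕ, 0 < N ∧ ∃ a : Fin (q * (p + s)) → ℤ, w ^ N =
      ((∏ j, (Units.mk0 (Complex.exp (H7_entry V (e.symm j))) (Complex.exp_ne_zero _)) ^ a j :
        ℂˣ) : ℂ) := by
  obtain ⟨r, f, hrf⟩ := H7_span V h
  obtain ⟨N, hN, ⟨m, hm⟩, n, hn⟩ := H7_clear r f
  have hpi : (2 * Real.pi * I : ℂ) ≠ 0 := Complex.two_pi_I_ne_zero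
  have h1 : Complex.log w = (r : ℂ) * (2 * Real.pi * I) + ∑ i, (f i : ℂ) * H7_entry V i := by
    have h2 : Complex.log w = (2 * Real.pi * I) * ((2 * Real.pi * I)⁻¹ * Complex.log w) := by
      rw [← mul_assoc, mul_inv_cancel₀ hpi, one_mul]
    rw [h2, hrf, mul_add, Finset.mul_sum]
    congr 1
    · ring
    · refine Finset.sum_congr rfl fun i _ => ?_
      field_simp
  have hm' : (N : ℂ) * (r : ℂ) = (m : ℂ) := by exact_mod_cast congrArg (fun x : ℚ => (x : ℂ)) hm
  have hn' : ∀ i, (N : ℂ) * (f i : ℂ) = (n i : ℂ) := fun i => by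
    exact_mod_cast congrArg (fun x : ℚ => (x : ℂ)) (hn i)
  have h3 : (N : ℂ) * Complex.log w = (m : ℂ) * (2 * Real.pi * I) +
      ∑ i, (n i : ℂ) * H7_entry V i := by
    rw [h1, mul_add, ← mul_assoc, hm', Finset.mul_sum]
    congr 1
    refine Finset.sum_congr rfl fun i _ => ?_
    rw [← mul_assoc, hn']
  refine ⟨N, hN, fun j => n (e.symm j), ?_⟩
  have h4 : w ^ N = Complex.exp ((N : ℂ) * Complex.log w) := by
    rw [Complex.exp_nat_mul, Complex.exp_log hw]
  rw [h4, h3, Complex.exp_add, Complex.exp_int_mul_two_pi_mul_I, one_mul, Complex.exp_sum]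
  rw [← Equiv.prod_comp e.symm fun i => Complex.exp ((n i : ℂ) * H7_entry V i)]
  rw [Units.coe_prod]
  refine Finset.prod_congr rfl fun j _ => ?_
  rw [Units.val_zpow_eq_zpow_val, Units.val_mk0, Complex.exp_int_mul]

/-- Points with `log z`, `log (1 - z)` in the constant span lie in the division group of the group
generated by the exponentials of the entries of `Vc` and `Wc`. -/
theorem exists_gens (V : TateData p q s) : ∃ g : Fin (q * (p + s)) → ℂˣ,
    ∀ z : ℂ, z ≠ 0 → z ≠ 1 → e0 z ∈ V.constSpan → e1 z ∈ V.constSpan → IsSol g z := by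
  have hcard : Fintype.card ((Fin q × Fin p) ⊕ (Fin s × Fin q)) = q * (p + s) := by
    simp only [Fintype.card_sum, Fintype.card_prod, Fintype.card_fin]
    ring
  let e : (Fin q × Fin p) ⊕ (Fin s × Fin q) ≃ Fin (q * (p + s)) := Fintype.equivFinOfCardEq hcard
  refine ⟨fun j => Units.mk0 (Complex.exp (H7_entry V (e.symm j))) (Complex.exp_ne_zero _), ?_⟩
  intro z hz hz1 h0 h1
  have hz1' : 1 - z ≠ 0 := sub_ne_zero.mpr (Ne.symm hz1)
  obtain ⟨N, hN, a, ha⟩ := H7_pow V e hz h0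
  obtain ⟨M, hM, b, hb⟩ := H7_pow V e hz1' h1
  refine ⟨hz, hz1', N * M, Nat.mul_pos hN hM, fun j => a j * M, fun j => b j * N, ?_, ?_⟩
  · rw [pow_mul, ha, ← Units.val_pow_eq_pow_val, ← Finset.prod_pow]
    congr 1
    refine Finset.prod_congr rfl fun j _ => ?_
    rw [_root_.zpow_mul, zpow_natCast]
  · rw [mul_comm N M, pow_mul, hb, ← Units.val_pow_eq_pow_val, ← Finset.prod_pow]
    congr 1
    refine Finset.prod_congr rfl fun j _ => ?_
    rw [_root_.zpow_mul, zpow_natCast]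

end Pool.Agent.LibMT49
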