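import Pool.Agent.LibMT49.H5

set_option autoImplicit false
open Complex Matrix

namespace Pool.Agent.LibMT49

variable {p q s : ℕ}

/-- A rational relation between `e0 z`, `e1 z` and `1` gives a multiplicative relation. -/
theorem exists_rel {z : ℂ} (hz : z ≠ 0) (hz1 : z ≠ 1) {α β r : ℚ} (h : ¬ (α = 0 ∧ β = 0))
    (hr : (α : ℂ) * e0 z + (β : ℂ) * e1 z = r) :
    ∃ a b : ℤ, (a, b) ≠ (0, 0) ∧ z ^ a * (1 - z) ^ b = 1 := by
  have hz1' : 1 - z ≠ 0 := sub_ne_zero.2 (Ne.symm hz1)
  have hpi : (2 * Real.pi * I : ℂ) ≠ 0 := Complex.two_pi_I_ne_zero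
  refine ⟨α.num * β.den * r.den, β.num * α.den * r.den, ?_, ?_⟩
  · intro h2
    rw [Prod.mk.injEq] at h2
    obtain ⟨h3, h4⟩ := h2
    apply h
    constructor
    · have : α.num = 0 := by
        rcases mul_eq_zero.1 h3 with h5 | h5
        · rcases mul_eq_zero.1 h5 with h6 | h6
          · exact h6
          · exact absurd (by exact_mod_cast h6) β.den_nz
        · exact absurd (by exact_mod_cast h5) r.den_nz
      exact Rat.zero_of_num_zero this
    · have : β.num = 0 := by
        rcases mul_eq_zero.1 h4 with h5 | h5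
        · rcases mul_eq_zero.1 h5 with h6 | h6
          · exact h6
          · exact absurd (by exact_mod_cast h6) α.den_nz
        · exact absurd (by exact_mod_cast h5) r.den_nz
      exact Rat.zero_of_num_zero this
  · have hlog : ((α.num * β.den * r.den : ℤ) : ℂ) * Complex.log z +
        ((β.num * α.den * r.den : ℤ) : ℂ) * Complex.log (1 - z) =
        ((r.num * α.den * β.den : ℤ) : ℂ) * (2 * Real.pi * I) := by
      have hα : (α : ℂ) = (α.num : ℂ) / (α.den : ℂ) := by exact_mod_cast α.num_div_den.symm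
      have hβ : (β : ℂ) = (β.num : ℂ) / (β.den : ℂ) := by exact_mod_cast β.num_div_den.symm
      have hr' : (r : ℂ) = (r.num : ℂ) / (r.den : ℂ) := by exact_mod_cast r.num_div_den.symm
      have a1 : (α.den : ℂ) ≠ 0 := by exact_mod_cast α.den_nz
      have a2 : (β.den : ℂ) ≠ 0 := by exact_mod_cast β.den_nz
      have a3 : (r.den : ℂ) ≠ 0 := by exact_mod_cast r.den_nz
      rw [hα, hβ, hr', e0, e1] at hr
      field_simp at hr
      push_cast
      linear_combination hr
    have h1 : Complex.exp (((α.num * β.den * r.den : ℤ) : ℂ) * Complex.log z) =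
        z ^ (α.num * β.den * r.den : ℤ) := by
      rw [Complex.exp_int_mul, Complex.exp_log hz]
    have h2 : Complex.exp (((β.num * α.den * r.den : ℤ) : ℂ) * Complex.log (1 - z)) =
        (1 - z) ^ (β.num * α.den * r.den : ℤ) := by
      rw [Complex.exp_int_mul, Complex.exp_log hz1']
    rw [← h1, ← h2, ← Complex.exp_add, hlog, Complex.exp_int_mul_two_pi_mul_I]

end Pool.Agent.LibMT49
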