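import Pool.Agent.LibMT49.H5a
import Pool.Agent.LibMT49.H5b
import Pool.Agent.LibMT49.H6
import Pool.Agent.LibMT49.H8a

set_option autoImplicit false
open Complex Matrix

namespace Pool.Agent.LibMT49

variable {p q s : ℕ}

theorem H8_trace_cast (A : Matrix (Fin p) (Fin p) ℚ) : (cast A).trace = ((A.trace : ℚ) : ℂ) := by
  simp [cast, Matrix.trace]

theorem H8_exists_dual {W : Submodule ℚ ℂ} {c : ℂ} (hc : c ∉ W) :
    ∃ g : ℂ →ₗ[ℚ] ℚ, g c ≠ 0 ∧ ∀ w ∈ W, g w = 0 := by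
  obtain ⟨g, hg, hg'⟩ := Submodule.exists_dual_map_eq_bot_of_notMem hc inferInstance
  refine ⟨g, hg, fun w hw => ?_⟩
  have : g w ∈ W.map g := ⟨w, hw, rfl⟩
  rw [hg'] at this
  simpa using this

theorem H8_mem_one {c : ℂ} (h : ∀ g : ℂ →ₗ[ℚ] ℚ, g 1 = 0 → g c = 0) : ∃ r : ℚ, c = r := by
  by_contra hc
  have : c ∉ Submodule.span ℚ {(1 : ℂ)} := by
    intro hmem
    obtain ⟨r, hr⟩ := Submodule.mem_span_singleton.1 hmem
    exact hc ⟨r, by rw [← hr, Rat.smul_def, mul_one]⟩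
  obtain ⟨g, hg, hg'⟩ := H8_exists_dual this
  exact hg (h g (hg' 1 (Submodule.mem_span_singleton_self 1)))

theorem H8_trace_symbol (V : TateData p q s) (θ : Matrix (Fin p) (Fin s) ℚ) (z : ℂ)
    (g h : ℂ →ₗ[ℚ] ℚ) (hg : g 1 = 0) (hh : h 1 = 0) :
    (θ * ((V.y z).map g * (V.x z).map h - (V.y z).map h * (V.x z).map g)).trace =
      (θ * (((2 * Real.pi * I)⁻¹ • V.Wc).map g * ((2 * Real.pi * I)⁻¹ • V.Vc).map h -
        ((2 * Real.pi * I)⁻¹ • V.Wc).map h * ((2 * Real.pi * I)⁻¹ • V.Vc).map g)).trace +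
      (g (e0 z) * h (e1 z) - h (e0 z) * g (e1 z)) * (θ * V.dilogCoeff).trace := by
  rw [symbol_eq V z g h hg hh, Matrix.mul_add, Matrix.trace_add, Matrix.mul_smul,
    Matrix.trace_smul, smul_eq_mul]

theorem H8_trace_degTwo (V : TateData p q s) (θ : Matrix (Fin p) (Fin s) ℚ)
    (hn : (θ * V.dilogCoeff).trace = 0) (f : ℂ →ₗ[ℚ] ℚ) (hf : f 1 = 1) (z : ℂ) :
    (cast θ * degTwo f (V.x z) (V.t z) (V.y z)).trace = (cast θ * V.degTwoConst f).trace := by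
  obtain ⟨c, hc⟩ := degTwo_eq V f hf z
  rw [hc, Matrix.mul_add, Matrix.trace_add, Matrix.mul_smul, Matrix.trace_smul, ← cast_mul,
    H8_trace_cast, hn]
  simp

/-- The coefficient of the dilogarithm is killed. -/
theorem H8_coeff (V : TateData p q s) {z : ℂ}
    (hz : z ≠ 0) (hz1 : z ≠ 1) (h : ¬ (e0 z ∈ V.constSpan ∧ e1 z ∈ V.constSpan))
    (h2 : V.Twisted ∨ ¬ ∃ a b : ℤ, (a, b) ≠ (0, 0) ∧ z ^ a * (1 - z) ^ b = 1)
    (θ : Matrix (Fin p) (Fin s) ℚ)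
    (hs : ∀ g h : ℂ →ₗ[ℚ] ℚ, g 1 = 0 → h 1 = 0 →
      (θ * ((V.y z).map g * (V.x z).map h - (V.y z).map h * (V.x z).map g)).trace = 0) :
    (θ * V.dilogCoeff).trace = 0 := by
  by_contra hn
  obtain ⟨g, hg, hgW⟩ : ∃ g : ℂ →ₗ[ℚ] ℚ, ¬ (g (e1 z) = 0 ∧ g (e0 z) = 0) ∧
      ∀ w ∈ V.constSpan, g w = 0 := by
    by_cases h0 : e0 z ∈ V.constSpan
    · have h1 : e1 z ∉ V.constSpan := fun h1 => h ⟨h0, h1⟩
      obtain ⟨g, hg, hg'⟩ := H8_exists_dual h1
      exact ⟨g, fun h => hg h.1, hg'⟩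
    · obtain ⟨g, hg, hg'⟩ := H8_exists_dual h0
      exact ⟨g, fun h => hg h.2, hg'⟩
  have hg1 : g 1 = 0 := hgW 1 (Submodule.subset_span (Or.inl (Or.inl rfl)))
  have hgV : ((2 * Real.pi * I : ℂ)⁻¹ • V.Vc).map g = 0 := by
    ext i j
    exact hgW _ (Submodule.subset_span (Or.inl (Or.inr ⟨(i, j), rfl⟩)))
  have hgWc : ((2 * Real.pi * I : ℂ)⁻¹ • V.Wc).map g = 0 := by
    ext i j
    exact hgW _ (Submodule.subset_span (Or.inr ⟨(i, j), rfl⟩))
  obtain ⟨r, hr⟩ : ∃ r : ℚ, g (e0 z) • e1 z - g (e1 z) • e0 z = (r : ℂ) := by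
    apply H8_mem_one
    intro k hk
    have h3 := hs g k hg1 hk
    rw [H8_trace_symbol V θ z g k hg1 hk, hgV, hgWc] at h3
    simp only [Matrix.zero_mul, Matrix.mul_zero, sub_zero, Matrix.trace_zero, zero_add] at h3
    have h4 := (mul_eq_zero.1 h3).resolve_right hn
    rw [map_sub, map_smul, map_smul, smul_eq_mul, smul_eq_mul]
    linarith
  have hrel : ∃ a b : ℤ, (a, b) ≠ (0, 0) ∧ z ^ a * (1 - z) ^ b = 1 := by
    refine exists_rel (α := -g (e1 z)) (β := g (e0 z)) (r := r) hz hz1 ?_ ?_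
    · rintro ⟨h5, h6⟩
      exact hg ⟨neg_eq_zero.1 h5, h6⟩
    · rw [← hr, Rat.smul_def, Rat.smul_def]
      push_cast
      ring
  rcases h2 with h2 | h2
  · apply hn
    apply h2
    intro F G hF hG
    set F' : ℂ →ₗ[ℚ] ℚ := F ∘ₗ (LinearMap.mulLeft ℚ (2 * Real.pi * I)) with hF'
    set G' : ℂ →ₗ[ℚ] ℚ := G ∘ₗ (LinearMap.mulLeft ℚ (2 * Real.pi * I)) with hG'
    have hF1 : F' 1 = 0 := by
      rw [hF', LinearMap.comp_apply, LinearMap.mulLeft_apply, mul_one, hF]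
    have hG1 : G' 1 = 0 := by
      rw [hG', LinearMap.comp_apply, LinearMap.mulLeft_apply, mul_one, hG]
    have e : ∀ {m n : Type} (A : Matrix m n ℂ) (K : ℂ →ₗ[ℚ] ℚ),
        ((2 * Real.pi * I : ℂ)⁻¹ • A).map (K ∘ₗ (LinearMap.mulLeft ℚ (2 * Real.pi * I))) =
          A.map K := by
      intro m n A K
      ext i j
      simp only [Matrix.map_apply, Matrix.smul_apply, smul_eq_mul, LinearMap.comp_apply,
        LinearMap.mulLeft_apply]
      rw [mul_inv_cancel_left₀ Complex.two_pi_I_ne_zero]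
    have h3 := hs F' G' hF1 hG1
    rw [H8_trace_symbol V θ z F' G' hF1 hG1] at h3
    have hdet : F' (e0 z) * G' (e1 z) - G' (e0 z) * F' (e1 z) = 0 := by
      have a1 : ∀ K : ℂ →ₗ[ℚ] ℚ, K 1 = 0 → g (e0 z) * K (e1 z) = g (e1 z) * K (e0 z) := by
        intro K hK
        have := congrArg K hr
        rw [map_sub, map_smul, map_smul, smul_eq_mul, smul_eq_mul] at this
        have h7 : K (r : ℂ) = 0 := by
          have : (r : ℂ) = r • (1 : ℂ) := by rw [Rat.smul_def, mul_one]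
          rw [this, map_smul, hK, smul_zero]
        rw [h7] at this
        linarith
      have b1 := a1 F' hF1
      have b2 := a1 G' hG1
      by_cases h0 : g (e0 z) = 0
      · have h1 : g (e1 z) ≠ 0 := fun h1 => hg ⟨h1, h0⟩
        rw [h0, zero_mul] at b1 b2
        have c1 := (mul_eq_zero.1 b1.symm).resolve_left h1
        have c2 := (mul_eq_zero.1 b2.symm).resolve_left h1
        rw [c1, c2]; ring
      · apply mul_left_cancel₀ h0
        linear_combination (F' (e0 z)) * b2 - (G' (e0 z)) * b1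
    rw [hdet, zero_mul, add_zero, hF', hG', e, e, e, e] at h3
    exact h3
  · exact h2 hrel

/-- The functionals which kill the part of degree two are the same at almost all points. -/
theorem killer_le (V : TateData p q s) (f : ℂ →ₗ[ℚ] ℚ) (hf : f 1 = 1) {z : ℂ} (z' : ℂ)
    (hz : z ≠ 0) (hz1 : z ≠ 1) (h : ¬ (e0 z ∈ V.constSpan ∧ e1 z ∈ V.constSpan))
    (h2 : V.Twisted ∨ ¬ ∃ a b : ℤ, (a, b) ≠ (0, 0) ∧ z ^ a * (1 - z) ^ b = 1) :
    killer f (V.x z) (V.t z) (V.y z) ≤ killer f (V.x z') (V.t z') (V.y z') := by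
  intro θ hθ
  rw [mem_killer] at hθ ⊢
  obtain ⟨hs, hd⟩ := hθ
  have hn := H8_coeff V hz hz1 h h2 θ hs
  constructor
  · intro g k hg hk
    have h3 := hs g k hg hk
    rw [H8_trace_symbol V θ z g k hg hk, hn, mul_zero] at h3
    rw [H8_trace_symbol V θ z' g k hg hk, hn, mul_zero]
    exact h3
  · rw [H8_trace_degTwo V θ hn f hf] at hd ⊢
    exact hd

end Pool.Agent.LibMT49
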