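import Pool.Agent.LibMT49.H3
import Pool.Agent.LibMT49.H4
import Pool.Agent.LibMT49.H7
import Pool.Agent.LibMT49.H8

set_option autoImplicit false
open Complex Matrix Pool.Agent.LibUE49

namespace Pool.Agent.LibMT49

variable {p q s : ℕ}

/-- A rational linear functional on `ℂ` with value `1` at `1`. -/
theorem exists_functional : ∃ f : ℂ →ₗ[ℚ] ℚ, f 1 = 1 := by
  have h := LinearMap.exists_leftInverse_of_injective (Algebra.linearMap ℚ ℂ)
    (LinearMap.ker_eq_bot.2 (algebraMap ℚ ℂ).injective)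
  obtain ⟨f, hf⟩ := h
  refine ⟨f, ?_⟩
  have := LinearMap.congr_fun hf 1
  simpa using this

theorem mtDim_add (hqs : 0 < q + s) (V : TateData p q s) (f : ℂ →ₗ[ℚ] ℚ) (hf : f 1 = 1)
    (z : ℂ) : V.mtDim z + Module.finrank ℚ (killer f (V.x z) (V.t z) (V.y z)) =
      Module.finrank ℚ (entrySpan (V.x z) (V.y z)) + s * p := by
  rw [TateData.mtDim, hodgeOperator_eq]
  exact le_antisymm (finrank_rationalHull_le f hf _ _ _) (le_finrank_rationalHull hqs f hf _ _ _)

theorem mtDim_le (hqs : 0 < q + s) (V : TateData p q s) {z : ℂ} (z' : ℂ) (hz : z ≠ 0) (hz1 : z ≠ 1)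
    (h : ¬ (e0 z ∈ V.constSpan ∧ e1 z ∈ V.constSpan))
    (h2 : V.Twisted ∨ ¬ ∃ a b : ℤ, (a, b) ≠ (0, 0) ∧ z ^ a * (1 - z) ^ b = 1) :
    V.mtDim z' ≤ V.mtDim z + 1 := by
  obtain ⟨f, hf⟩ := exists_functional
  have h3 := mtDim_add hqs V f hf z
  have h4 := mtDim_add hqs V f hf z'
  have h5 := Submodule.finrank_mono (killer_le V f hf z' hz hz1 h h2)
  have h6 := finrank_entrySpan_le V z z' h
  omega

theorem one_le_mtDim (hqs : 0 < q + s) (V : TateData p q s) (z : ℂ) : 1 ≤ V.mtDim z := by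
  obtain ⟨f, hf⟩ := exists_functional
  have h := mtDim_add hqs V f hf z
  have h1 : Module.finrank ℚ (killer f (V.x z) (V.t z) (V.y z)) ≤ s * p := by
    have := Submodule.finrank_le (killer f (V.x z) (V.t z) (V.y z))
    rwa [Module.finrank_matrix, Module.finrank_self, mul_one, Fintype.card_fin, Fintype.card_fin,
      mul_comm] at this
  have h2 : 1 ≤ Module.finrank ℚ (entrySpan (V.x z) (V.y z)) := by
    have hmem : (1 : ℂ) ∈ entrySpan (V.x z) (V.y z) :=
      Submodule.subset_span (Or.inl (Or.inl rfl))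
    have hfin : Module.Finite ℚ (entrySpan (V.x z) (V.y z)) :=
      Module.Finite.span_of_finite ℚ (((Set.finite_singleton _).union (Set.finite_range _)).union
        (Set.finite_range _))
    have : Nontrivial (entrySpan (V.x z) (V.y z)) :=
      ⟨⟨⟨1, hmem⟩, 0, fun h => one_ne_zero (congrArg Subtype.val h)⟩⟩
    exact Module.finrank_pos
  omega

theorem mtDim_eq_zero (hqs : ¬ 0 < q + s) (V : TateData p q s) (z : ℂ) : V.mtDim z = 0 := by
  have hq : q = 0 := by omega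
  have hs : s = 0 := by omega
  subst hq hs
  have hT : V.hodgeOperator z = 0 := by
    rw [hodgeOperator_eq, tri]
    ext i j
    rcases i with i | i | i
    · rcases j with j | j | j <;> simp
    · exact i.elim0
    · exact i.elim0
  rw [TateData.mtDim, hT]
  have : rationalHull (0 : Matrix (Fin p ⊕ Fin 0 ⊕ Fin 0) (Fin p ⊕ Fin 0 ⊕ Fin 0) ℂ) = ⊥ := by
    rw [eq_bot_iff]
    refine sInf_le ⟨?_, Submodule.zero_mem _⟩
    intro A hA B hB
    rw [Submodule.mem_bot] at hA hB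
    simp [hA, hB]
  rw [this, finrank_bot]

/-- The atypical points lie in the division group of the constants, unless the dilogarithm occurs
untwisted, when they may also satisfy a multiplicative relation. -/
theorem atypical_subset (V : TateData p q s) {z : ℂ} (hz : z ∈ V.atypicalLocus)
    (h2 : V.Twisted ∨ ¬ ∃ a b : ℤ, (a, b) ≠ (0, 0) ∧ z ^ a * (1 - z) ^ b = 1) :
    z ≠ 0 ∧ z ≠ 1 ∧ e0 z ∈ V.constSpan ∧ e1 z ∈ V.constSpan := by
  obtain ⟨⟨hz0, hz1, hlt⟩, hne⟩ := hz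
  refine ⟨hz0, hz1, ?_⟩
  have hqs : 0 < q + s := by
    by_contra hqs
    have h0 : V.genericMtDim = 0 := by
      rw [TateData.genericMtDim]
      simp only [mtDim_eq_zero hqs V]
      have : Nonempty {z : ℂ // z ≠ 0 ∧ z ≠ 1} := ⟨⟨z, hz0, hz1⟩⟩
      exact ciSup_const
    omega
  by_contra h
  apply hne
  have hle : V.genericMtDim ≤ V.mtDim z + 1 := by
    have : Nonempty {z : ℂ // z ≠ 0 ∧ z ≠ 1} := ⟨⟨z, hz0, hz1⟩⟩
    exact ciSup_le fun z' => mtDim_le hqs V z' hz0 hz1 h h2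
  have := one_le_mtDim hqs V z
  omega

theorem finite_exceptional (V : TateData p q s) :
    {z : ℂ | z ≠ 0 ∧ z ≠ 1 ∧ e0 z ∈ V.constSpan ∧ e1 z ∈ V.constSpan}.Finite ∧
    {z : ℂ | z ≠ 0 ∧ z ≠ 1 ∧ e0 z ∈ V.constSpan ∧ e1 z ∈ V.constSpan}.ncard ≤
      2 ^ (28 * (q * (p + s)) + 5) := by
  obtain ⟨g, hg⟩ := exists_gens V
  have hsub : {z : ℂ | z ≠ 0 ∧ z ≠ 1 ∧ e0 z ∈ V.constSpan ∧ e1 z ∈ V.constSpan} ⊆
      {z | IsSol g z} := fun z hz => hg z hz.1 hz.2.1 hz.2.2.1 hz.2.2.2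
  obtain ⟨h1, h2⟩ := finite_sol g
  exact ⟨h1.subset hsub, (Set.ncard_le_ncard hsub h1).trans h2⟩

end Pool.Agent.LibMT49
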